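import Pool.Agent.H72.Dj.T6

/-!
# Homomorphisms that are not proper: elements near the identity with arbitrary dynamics
-/

set_option autoImplicit false

open Filter Topology Set Metric Pool.Agent.TH289.C Pool.Agent.H72.Dj

namespace Pool.Agent.H72.In

section A

variable {G : Type} [Group G] {X : Type} [MetricSpace X] {α : G →* (X ≃ₜ X)}

/-- From a sequence of distinct elements whose images converge one gets such a sequence whose images
converge to the identity. -/
theorem exists_to_one {L : Type} [Group L] [TopologicalSpace L] [IsTopologicalGroup L]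
    (ρ : G →* L) {g : ℕ → G} {u : L} (hg : Function.Injective g)
    (hu : Tendsto (fun k => ρ (g k)) atTop (𝓝 u)) :
    ∃ h : ℕ → G, Function.Injective h ∧ Tendsto (fun k => ρ (h k)) atTop (𝓝 1) := by
  classical
  have h1 : ∀ (k : ℕ) (F : Finset G), ∃ m, k ≤ m ∧ g m * (g k)⁻¹ ∉ F := by
    intro k F
    by_contra hcon
    push Not at hcon
    have hinj : Function.Injective fun m : ℕ => g (k + m) * (g k)⁻¹ := by
      intro m m' hm
      have h2 : g (k + m) = g (k + m') := mul_right_cancel hm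
      have h3 := hg h2
      omega
    exact Set.infinite_of_injective_forall_mem hinj
      (s := (F : Set G)) (fun m => hcon (k + m) (by omega)) F.finite_toSet
  choose m hm hmF using h1
  let F : ℕ → Finset G := fun k =>
    Nat.rec ∅ (fun k F => insert (g (m k F) * (g k)⁻¹) F) k
  let h : ℕ → G := fun k => g (m k (F k)) * (g k)⁻¹
  have hF : ∀ k, F (k + 1) = insert (h k) (F k) := fun k => rfl
  have hmem : ∀ j k, j < k → h j ∈ F k := by
    intro j k hjk
    induction k with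
    | zero => omega
    | succ k ih =>
      rw [hF]
      rcases Nat.lt_succ_iff_lt_or_eq.1 hjk with h2 | h2
      · exact Finset.mem_insert_of_mem (ih h2)
      · rw [h2]; exact Finset.mem_insert_self _ _
  have hnot : ∀ k, h k ∉ F k := fun k => hmF k (F k)
  refine ⟨h, ?_, ?_⟩
  · intro j k hjk
    rcases lt_trichotomy j k with h2 | h2 | h2
    · exact absurd (hjk ▸ hmem j k h2) (hnot k)
    · exact h2
    · exact absurd (hjk ▸ hmem k j h2) (hnot j)
  · have h2 : Tendsto (fun k => m k (F k)) atTop atTop :=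
      tendsto_atTop_mono (fun k => hm k (F k)) tendsto_id
    have h3 : Tendsto (fun k => ρ (g (m k (F k))) * (ρ (g k))⁻¹) atTop (𝓝 (u * u⁻¹)) :=
      (hu.comp h2).mul hu.inv
    rw [mul_inv_cancel] at h3
    refine h3.congr fun k => ?_
    rw [← map_inv, ← map_mul]

theorem Conv.conj {h : ℕ → G} {a b : X} (hab : Conv α h a b) (f : G) :
    Conv α (fun n => f * h n * f⁻¹) (α f a) (α f b) := by
  intro U hU W hW
  have h1 : α f ⁻¹' U ∈ 𝓝 a := (α f).continuous.continuousAt.preimage_mem_nhds hU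
  have h2 : α f ⁻¹' W ∈ 𝓝 b := (α f).continuous.continuousAt.preimage_mem_nhds hW
  filter_upwards [hab _ h1 _ h2] with n hn x hx
  have h3 : α f⁻¹ x ∉ α f ⁻¹' W := by
    intro h0
    apply hx
    have h4 : α f (α f⁻¹ x) ∈ W := h0
    rwa [map_inv_apply'] at h4
  have h5 : α f (α (h n) (α f⁻¹ x)) ∈ U := hn _ h3
  rw [map_mul_apply, map_mul_apply]
  exact h5

theorem exists_finite [CompactSpace X] (hmin : ∀ x, Dense (range fun g => α g x)) {U : Set X}
    (hU : IsOpen U) (hne : U.Nonempty) : ∃ T : Finset G, ∀ x, ∃ t ∈ T, α t x ∈ U := by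
  obtain ⟨T, hT⟩ := isCompact_univ.elim_finite_subcover (fun g : G => α g ⁻¹' U)
    (fun g => hU.preimage (α g).continuous) (fun x _ => by
      obtain ⟨y, ⟨g, rfl⟩, hy⟩ := (hmin x).exists_mem_open hU hne
      exact mem_iUnion.2 ⟨g, hy⟩)
  refine ⟨T, fun x => ?_⟩
  obtain ⟨t, ht, h⟩ := mem_iUnion₂.1 (hT (mem_univ x))
  exact ⟨t, ht, h⟩

theorem exists_avoid [CompactSpace X] [Infinite X] (hmin : ∀ x, Dense (range fun g => α g x))
    {U : Set X} (hU : IsOpen U) (hne : U.Nonempty) (a b c : X) : ∃ f, α f a ∈ U ∧ α f b ≠ c := by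
  by_contra hcon
  push Not at hcon
  obtain ⟨T, hT⟩ := exists_finite hmin hU hne
  refine infinite_orbit hmin b ((T.finite_toSet.image fun t => α t⁻¹ c).subset ?_)
  rintro _ ⟨g, rfl⟩
  obtain ⟨t, ht, h⟩ := hT (α g a)
  refine ⟨t, ht, ?_⟩
  have h1 := hcon (t * g) (by rw [map_mul_apply]; exact h)
  rw [map_mul_apply] at h1
  change α t⁻¹ c = α g b
  rw [← h1, map_inv_apply]

/-- **Elements near the identity with arbitrary dynamics.** -/
theorem pingpong [CompactSpace X] [Infinite X] (hα : IsConvergenceAction α)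
    (hmin : ∀ x, Dense (range fun g => α g x)) {L : Type} [Group L] [TopologicalSpace L]
    [IsTopologicalGroup L] (ρ : G →* L) {g : ℕ → G} {u : L} (hg : Function.Injective g)
    (hu : Tendsto (fun k => ρ (g k)) atTop (𝓝 u)) {U U' : Set X} (hU : IsOpen U)
    (hne : U.Nonempty) (hU' : IsOpen U') (hne' : U'.Nonempty) {W : Set L} (hW : W ∈ 𝓝 (1 : L)) :
    ∃ g, ρ g ∈ W ∧ ∀ x ∉ U', α g x ∈ U := by
  obtain ⟨h, hh, h1⟩ := exists_to_one ρ hg hu
  obtain ⟨φ, hφ, a, b, hab⟩ := hα h (tendsto_cofinite_of_inj hh)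
  have hab' : Conv α (fun n => h (φ n)) a b := hab
  obtain ⟨y, ⟨f₂, rfl⟩, hy⟩ := (hmin b).exists_mem_open hU' hne'
  obtain ⟨f₁, hf₁, hne₁⟩ := exists_avoid hmin hU hne a b (α f₂ a)
  obtain ⟨N₁, N₂, hN₁, hN₂, hb₁, ha₂, hd⟩ := t2_separation hne₁
  have e1 := (Conv.conj hab' f₁) U (hU.mem_nhds hf₁) N₁ (hN₁.mem_nhds hb₁)
  have e2 := (Conv.conj hab' f₂) N₂ (hN₂.mem_nhds ha₂) U' (hU'.mem_nhds hy)
  have h2 : Tendsto (fun n => ρ (h (φ n))) atTop (𝓝 1) := h1.comp hφ.tendsto_atTop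
  have h3 : Tendsto (fun n => (ρ f₁ * ρ (h (φ n)) * (ρ f₁)⁻¹) * (ρ f₂ * ρ (h (φ n)) * (ρ f₂)⁻¹))
      atTop (𝓝 ((ρ f₁ * 1 * (ρ f₁)⁻¹) * (ρ f₂ * 1 * (ρ f₂)⁻¹))) :=
    ((h2.const_mul (ρ f₁)).mul_const _).mul ((h2.const_mul (ρ f₂)).mul_const _)
  rw [mul_one, mul_one, mul_inv_cancel, mul_inv_cancel, mul_one] at h3
  have e3 := h3.eventually hW
  obtain ⟨n, hn1, hn2, hn3⟩ := (e1.and (e2.and e3)).exists
  refine ⟨(f₁ * h (φ n) * f₁⁻¹) * (f₂ * h (φ n) * f₂⁻¹), ?_, fun x hx => ?_⟩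
  · simp only [map_mul, map_inv] at hn3 ⊢
    exact hn3
  · rw [map_mul_apply]
    exact hn1 _ fun h0 => disjoint_left.1 hd h0 (hn2 x hx)

end A

end Pool.Agent.H72.In
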