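import Pool.Agent.H72.In.I9
import Pool.Agent.H72.Dj.T12

/-!
# Convex cones: the adjoint action
-/

set_option autoImplicit false

open Filter Topology Set Metric Pool.Agent.TH289.C Pool.Agent.H72.Dj

namespace Pool.Agent.H72.In

variable {V : Type} [NormedAddCommGroup V] [NormedSpace ℝ V] {G : Type} [Group G]

/-- Conjugation by an invertible operator. -/
noncomputable def adj (ρ : G →* (V ≃L[ℝ] V)) (g : G) : (V →L[ℝ] V) →L[ℝ] (V →L[ℝ] V) :=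
  (ContinuousLinearMap.compL ℝ V V V (ρ g : V →L[ℝ] V)).comp
    ((ContinuousLinearMap.compL ℝ V V V).flip (ρ g⁻¹ : V →L[ℝ] V))

theorem adj_apply (ρ : G →* (V ≃L[ℝ] V)) (g : G) (A : V →L[ℝ] V) (v : V) :
    adj ρ g A v = ρ g (A (ρ g⁻¹ v)) := rfl

/-- The adjoint action. -/
noncomputable def Ad (ρ : G →* (V ≃L[ℝ] V)) : G →* ((V →L[ℝ] V) →L[ℝ] (V →L[ℝ] V))ˣ where
  toFun g := ⟨adj ρ g, adj ρ g⁻¹, ContinuousLinearMap.ext fun A => ContinuousLinearMap.ext fun v => by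
    change ρ g (ρ g⁻¹ (A (ρ g⁻¹⁻¹ (ρ g⁻¹ v)))) = A v
    rw [← rho_mul, ← rho_mul, inv_inv, mul_inv_cancel, rho_one, rho_one],
    ContinuousLinearMap.ext fun A => ContinuousLinearMap.ext fun v => by
    change ρ g⁻¹ (ρ g (A (ρ g⁻¹ (ρ g⁻¹⁻¹ v)))) = A v
    rw [← rho_mul, ← rho_mul, inv_inv, inv_mul_cancel, rho_one, rho_one]⟩
  map_one' := Units.ext (ContinuousLinearMap.ext fun A => ContinuousLinearMap.ext fun v => by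
    change ρ 1 (A (ρ 1⁻¹ v)) = A v
    rw [inv_one, rho_one, rho_one])
  map_mul' g h := Units.ext (ContinuousLinearMap.ext fun A => ContinuousLinearMap.ext fun v => by
    change ρ (g * h) (A (ρ (g * h)⁻¹ v)) = ρ g (ρ h (A (ρ h⁻¹ (ρ g⁻¹ v))))
    rw [mul_inv_rev, rho_mul, rho_mul])

variable {ρ : G →* (V ≃L[ℝ] V)}

theorem Ad_apply (g : G) (A : V →L[ℝ] V) (v : V) :
    ((Ad ρ g : ((V →L[ℝ] V) →L[ℝ] (V →L[ℝ] V))ˣ) : (V →L[ℝ] V) →L[ℝ] (V →L[ℝ] V)) A v =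
      ρ g (A (ρ g⁻¹ v)) := rfl

theorem norm_Ad_le {g : G} {c : ℝ} (hc : 0 < c) {M N : ℝ} (h1 : ‖c • (ρ g : V →L[ℝ] V)‖ ≤ M)
    (h2 : ‖c⁻¹ • (ρ g⁻¹ : V →L[ℝ] V)‖ ≤ N) :
    ‖((Ad ρ g : ((V →L[ℝ] V) →L[ℝ] (V →L[ℝ] V))ˣ) : (V →L[ℝ] V) →L[ℝ] (V →L[ℝ] V))‖ ≤ M * N := by
  have hM : 0 ≤ M := (norm_nonneg _).trans h1
  have hN : 0 ≤ N := (norm_nonneg _).trans h2
  refine ContinuousLinearMap.opNorm_le_bound _ (by positivity) fun A => ?_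
  refine ContinuousLinearMap.opNorm_le_bound _ (by positivity) fun v => ?_
  have e : ((Ad ρ g : ((V →L[ℝ] V) →L[ℝ] (V →L[ℝ] V))ˣ) : (V →L[ℝ] V) →L[ℝ] (V →L[ℝ] V)) A v =
      (c • (ρ g : V →L[ℝ] V)) (A ((c⁻¹ • (ρ g⁻¹ : V →L[ℝ] V)) v)) := by
    change ρ g (A (ρ g⁻¹ v)) = c • ρ g (A (c⁻¹ • ρ g⁻¹ v))
    rw [map_smul, map_smul, smul_smul, mul_inv_cancel₀ hc.ne', one_smul]
  rw [e]
  calc _ ≤ ‖c • (ρ g : V →L[ℝ] V)‖ * ‖A ((c⁻¹ • (ρ g⁻¹ : V →L[ℝ] V)) v)‖ :=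
        ContinuousLinearMap.le_opNorm _ _
    _ ≤ M * (‖A‖ * ‖(c⁻¹ • (ρ g⁻¹ : V →L[ℝ] V)) v‖) := by
        gcongr
        exact ContinuousLinearMap.le_opNorm _ _
    _ ≤ M * (‖A‖ * (N * ‖v‖)) := by
        gcongr
        exact (ContinuousLinearMap.le_opNorm _ _).trans (by gcongr)
    _ = M * N * ‖A‖ * ‖v‖ := by ring

variable {C : Set V} {τ : V →L[ℝ] ℝ}

/-- Actions on the domain that are not proper. -/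
theorem inf_Ad [FiniteDimensional ℝ V] (h : IsStrictCone C τ) (h0 : (0 : V) ∉ C)
    (hpres : ∀ g, ∀ v ∈ C, ρ g v ∈ C) (hp : ¬ Prop' C τ ρ) : ∃ M : ℝ,
    {g : G | ‖((Ad ρ g : ((V →L[ℝ] V) →L[ℝ] (V →L[ℝ] V))ˣ) : (V →L[ℝ] V) →L[ℝ] (V →L[ℝ] V))‖ ≤
      M ∧ ‖((Ad ρ g⁻¹ : ((V →L[ℝ] V) →L[ℝ] (V →L[ℝ] V))ˣ) : (V →L[ℝ] V) →L[ℝ] (V →L[ℝ] V))‖ ≤
      M}.Infinite := by
  obtain ⟨g, A, B, c, hg, hc, hA, hB, -, -⟩ := exists_limit h h0 hpres hp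
  have e1 : ∀ᶠ n in atTop, ‖(c n) • (ρ (g n) : V →L[ℝ] V)‖ ≤ ‖A‖ + 1 :=
    hA.norm.eventually (eventually_le_nhds (lt_add_one _))
  have e2 : ∀ᶠ n in atTop, ‖(c n)⁻¹ • (ρ (g n)⁻¹ : V →L[ℝ] V)‖ ≤ ‖B‖ + 1 :=
    hB.norm.eventually (eventually_le_nhds (lt_add_one _))
  obtain ⟨N, hN⟩ := eventually_atTop.1 (e1.and e2)
  refine ⟨(‖A‖ + 1) * (‖B‖ + 1), Set.infinite_of_injective_forall_mem
    (f := fun k => g (N + k)) (fun k l hkl => by have := hg hkl; omega) (fun k => ?_)⟩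
  obtain ⟨h1, h2⟩ := hN (N + k) (by omega)
  have e3 : (c (N + k))⁻¹⁻¹ • (ρ (g (N + k))⁻¹⁻¹ : V →L[ℝ] V) =
      (c (N + k)) • (ρ (g (N + k)) : V →L[ℝ] V) := by rw [inv_inv, inv_inv]
  refine ⟨norm_Ad_le (hc _) h1 h2, ?_⟩
  have h3 := norm_Ad_le (ρ := ρ) (g := (g (N + k))⁻¹) (inv_pos.2 (hc (N + k))) h2
    (N := ‖A‖ + 1) (by rw [e3]; exact h1)
  rwa [mul_comm] at h3

/-- The displacement is controlled by the adjoint action. -/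
theorem displ_le (h : IsStrictCone C τ) (hpres : ∀ g, ∀ v ∈ C, ρ g v ∈ C) {o : V}
    (ho : o ∈ Dom C τ) {g : G} {δ : ℝ}
    (hδ : ‖((Ad ρ g : ((V →L[ℝ] V) →L[ℝ] (V →L[ℝ] V))ˣ) : (V →L[ℝ] V) →L[ℝ] (V →L[ℝ] V)) - 1‖ ≤ δ)
    (hδ2 : δ * (‖τ‖ ^ 2 * ‖o‖ ^ 2) ≤ 1 / 2) :
    ‖pa τ ρ g o - o‖ ≤ δ * (2 * (‖τ‖ * ‖o‖ ^ 2 * (1 + ‖τ‖ * ‖o‖))) := by
  have hδ0 : 0 ≤ δ := (ContinuousLinearMap.opNorm_nonneg _).trans hδ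
  have hτo : τ o = 1 := ho.2
  -- the rank one operator
  set P : V →L[ℝ] V := τ.smulRight o with hP
  have hPn : ‖P‖ ≤ ‖τ‖ * ‖o‖ := (ContinuousLinearMap.norm_smulRight_apply τ o).le
  set a : ℝ := τ (ρ g⁻¹ o) with ha
  set b : ℝ := τ (ρ g o) with hb
  have ha0 : 0 < a := pos_kbar h hpres g⁻¹ (dom_kbar ho)
  have hb0 : 0 < b := pos_kbar h hpres g (dom_kbar ho)
  set w : V := a • ρ g o - o with hw
  have hwn : ‖w‖ ≤ δ * (‖τ‖ * ‖o‖) * ‖o‖ := by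
    have e1 : w = ((((Ad ρ g : ((V →L[ℝ] V) →L[ℝ] (V →L[ℝ] V))ˣ) :
        (V →L[ℝ] V) →L[ℝ] (V →L[ℝ] V)) - 1) P) o := by
      change a • ρ g o - o = ρ g (τ (ρ g⁻¹ o) • o) - τ o • o
      rw [hτo, one_smul, map_smul]
    rw [e1]
    calc _ ≤ ‖(((Ad ρ g : ((V →L[ℝ] V) →L[ℝ] (V →L[ℝ] V))ˣ) :
        (V →L[ℝ] V) →L[ℝ] (V →L[ℝ] V)) - 1) P‖ * ‖o‖ := ContinuousLinearMap.le_opNorm _ _
      _ ≤ (‖((Ad ρ g : ((V →L[ℝ] V) →L[ℝ] (V →L[ℝ] V))ˣ) :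
        (V →L[ℝ] V) →L[ℝ] (V →L[ℝ] V)) - 1‖ * ‖P‖) * ‖o‖ := by
          gcongr; exact ContinuousLinearMap.le_opNorm _ _
      _ ≤ δ * (‖τ‖ * ‖o‖) * ‖o‖ := by gcongr
  have hτw : |τ w| ≤ 1 / 2 := by
    rw [← Real.norm_eq_abs]
    calc ‖τ w‖ ≤ ‖τ‖ * ‖w‖ := τ.le_opNorm w
      _ ≤ ‖τ‖ * (δ * (‖τ‖ * ‖o‖) * ‖o‖) := by gcongr
      _ = δ * (‖τ‖ ^ 2 * ‖o‖ ^ 2) := by ring
      _ ≤ 1 / 2 := hδ2
  have hab : a * b = 1 + τ w := by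
    rw [hw, map_sub, map_smul, smul_eq_mul, hτo]
    ring
  have hab2 : 1 / 2 ≤ a * b := by
    rw [hab]
    linarith [neg_abs_le (τ w)]
  have e2 : pa τ ρ g o - o = (a * b)⁻¹ • (w - (τ w) • o) := by
    have e3 : pa τ ρ g o = b⁻¹ • ρ g o := rfl
    have e4 : w - (τ w) • o = a • ρ g o - (a * b) • o := by
      rw [hab, add_smul, one_smul, hw]
      abel
    rw [e3, e4, smul_sub, smul_smul, smul_smul, inv_mul_cancel₀ (by positivity), one_smul,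
      mul_inv, mul_comm a⁻¹, mul_assoc, inv_mul_cancel₀ ha0.ne', mul_one]
  rw [e2, norm_smul, norm_inv, Real.norm_of_nonneg (by positivity)]
  have h5 : (a * b)⁻¹ ≤ 2 := by
    rw [inv_le_comm₀ (by positivity) (by norm_num)]
    linarith
  have h6 : ‖w - (τ w) • o‖ ≤ ‖w‖ * (1 + ‖τ‖ * ‖o‖) := by
    calc _ ≤ ‖w‖ + ‖(τ w) • o‖ := norm_sub_le _ _
      _ = ‖w‖ + ‖τ w‖ * ‖o‖ := by rw [norm_smul]
      _ ≤ ‖w‖ + (‖τ‖ * ‖w‖) * ‖o‖ := by gcongr; exact τ.le_opNorm w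
      _ = ‖w‖ * (1 + ‖τ‖ * ‖o‖) := by ring
  calc _ ≤ 2 * (‖w‖ * (1 + ‖τ‖ * ‖o‖)) := by gcongr
    _ ≤ 2 * ((δ * (‖τ‖ * ‖o‖) * ‖o‖) * (1 + ‖τ‖ * ‖o‖)) := by gcongr
    _ = δ * (2 * (‖τ‖ * ‖o‖ ^ 2 * (1 + ‖τ‖ * ‖o‖))) := by ring

/-- Small displacement. -/
theorem displ_small (h : IsStrictCone C τ) (hpres : ∀ g, ∀ v ∈ C, ρ g v ∈ C) {o : V}
    (ho : o ∈ Dom C τ) {ε : ℝ} (hε : 0 < ε) : ∃ δ : ℝ, 0 < δ ∧ ∀ g : G,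
    ‖((Ad ρ g : ((V →L[ℝ] V) →L[ℝ] (V →L[ℝ] V))ˣ) : (V →L[ℝ] V) →L[ℝ] (V →L[ℝ] V)) - 1‖ ≤ δ →
    ‖pa τ ρ g o - o‖ ≤ ε := by
  set K₁ : ℝ := ‖τ‖ ^ 2 * ‖o‖ ^ 2 with hK₁
  set K₂ : ℝ := 2 * (‖τ‖ * ‖o‖ ^ 2 * (1 + ‖τ‖ * ‖o‖)) with hK₂
  have h1 : 0 ≤ K₁ := by positivity
  have h2 : 0 ≤ K₂ := by positivity
  refine ⟨min (1 / 2 / (K₁ + 1)) (ε / (K₂ + 1)), by positivity, fun g hg => ?_⟩
  have h3 : min (1 / 2 / (K₁ + 1)) (ε / (K₂ + 1)) * K₁ ≤ 1 / 2 := by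
    calc _ ≤ 1 / 2 / (K₁ + 1) * (K₁ + 1) := by
          gcongr
          · exact min_le_left _ _
          · linarith
      _ = 1 / 2 := by field_simp
  refine (displ_le h hpres ho hg h3).trans ?_
  calc _ ≤ ε / (K₂ + 1) * (K₂ + 1) := by
        gcongr
        · exact min_le_right _ _
        · linarith
    _ = ε := by field_simp

end Pool.Agent.H72.In
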