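import Pool.Agent.H72.In.I10

/-!
# Criteria for dividing actions
-/

set_option autoImplicit false

open Filter Topology Set Metric Pool.Agent.TH289.C Pool.Agent.H72.Dj

namespace Pool.Agent.H72.In

variable {V : Type} [NormedAddCommGroup V] [NormedSpace ℝ V] [FiniteDimensional ℝ V]
variable {G : Type} [Group G] {ρ : G →* (V ≃L[ℝ] V)} {C : Set V} {τ : V →L[ℝ] ℝ}
variable {X : Type} [MetricSpace X] {α : G →* (X ≃ₜ X)}

/-- A compact neighbourhood in the domain. -/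
theorem exists_nbhd (h : IsStrictCone C τ) {o : V} (ho : o ∈ Dom C τ) : ∃ ε : ℝ, 0 < ε ∧
    ∃ K ⊆ Dom C τ, IsCompact K ∧ o ∈ K ∧ ∀ v ∈ Dom C τ, ‖v - o‖ ≤ ε → v ∈ K := by
  have : ProperSpace V := FiniteDimensional.proper ℝ V
  obtain ⟨ε, hε, hεC⟩ := nhds_basis_closedBall.mem_iff.1 (h.isOpen.mem_nhds ho.1)
  refine ⟨ε, hε, closedBall o ε ∩ {v | τ v = 1}, fun v hv => ⟨hεC hv.1, hv.2⟩,
    (isCompact_closedBall o ε).inter_right (isClosed_eq τ.continuous continuous_const),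
    ⟨mem_closedBall_self hε.le, ho.2⟩, fun v hv hvo => ⟨?_, hv.2⟩⟩
  rw [mem_closedBall, dist_eq_norm]
  exact hvo

theorem pa_pow (h : IsStrictCone C τ) (hpres : ∀ g, ∀ v ∈ C, ρ g v ∈ C) {o : V}
    (ho : o ∈ Dom C τ) {g : G} (hg : pa τ ρ g o = o) (k : ℕ) : pa τ ρ (g ^ k) o = o := by
  induction k with
  | zero => rw [pow_zero, pa_one (dom_kbar ho)]
  | succ k ih => rw [pow_succ, pa_mul h hpres _ _ (dom_kbar ho), hg, ih]

/-- The displacement by loxodromic elements of a proper action. -/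
theorem displ_of_prop (h : IsStrictCone C τ) (hpres : ∀ g, ∀ v ∈ C, ρ g v ∈ C)
    (hp : Prop' C τ ρ) {o : V} (ho : o ∈ Dom C τ) :
    ∃ ε : ℝ, 0 < ε ∧ ∀ g, Sch α (fun _ : Fin 1 => g) → ε ≤ ‖pa τ ρ g o - o‖ := by
  obtain ⟨ε₀, hε₀, K, hKD, hKc, hoK, hK⟩ := exists_nbhd h ho
  have hF := hp K hKD hKc
  have h1 : ∀ g, Sch α (fun _ : Fin 1 => g) → 0 < ‖pa τ ρ g o - o‖ := by
    intro g hg
    refine norm_pos_iff.2 fun h0 => ?_
    have h2 : pa τ ρ g o = o := sub_eq_zero.1 h0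
    refine Set.infinite_of_injective_forall_mem (hg.pow_inj 0) (fun k => ?_) hF
    exact ⟨o, hoK, by rw [pa_pow h hpres ho h2]; exact hoK⟩
  have h2 : {g : G | Sch α (fun _ : Fin 1 => g) ∧ ‖pa τ ρ g o - o‖ ≤ ε₀}.Finite := by
    refine hF.subset ?_
    rintro g ⟨-, hg⟩
    exact ⟨o, hoK, hK _ (pa_dom h hpres g ho) hg⟩
  rcases {g : G | Sch α (fun _ : Fin 1 => g) ∧ ‖pa τ ρ g o - o‖ ≤ ε₀}.eq_empty_or_nonempty
    with h3 | h3
  · refine ⟨ε₀, hε₀, fun g hg => ?_⟩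
    by_contra hcon
    push Not at hcon
    have : g ∈ {g : G | Sch α (fun _ : Fin 1 => g) ∧ ‖pa τ ρ g o - o‖ ≤ ε₀} := ⟨hg, hcon.le⟩
    rw [h3] at this
    exact this
  · obtain ⟨b, hb, hmin⟩ := Set.exists_min_image _ (fun g => ‖pa τ ρ g o - o‖) h2 h3
    refine ⟨min ε₀ ‖pa τ ρ b o - o‖, lt_min hε₀ (h1 b hb.1), fun g hg => ?_⟩
    by_cases h4 : ‖pa τ ρ g o - o‖ ≤ ε₀
    · exact (min_le_right _ _).trans (hmin g ⟨hg, h4⟩)
    · push Not at h4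
      exact (min_le_left _ _).trans h4.le

variable [CompactSpace X] [Infinite X] (hα : IsConvergenceAction α)
  (hmin : ∀ x, Dense (range fun g => α g x)) (h : IsStrictCone C τ) (h0 : (0 : V) ∉ C)
  (hpres : ∀ g, ∀ v ∈ C, ρ g v ∈ C)

include hα hmin h h0 hpres

/-- The action is proper if it is proper on the subgroups generated by one loxodromic element and its
partners. -/
theorem prop_of_partner {s : G} (hs : Sch α (fun _ : Fin 1 => s)) {o : V} (ho : o ∈ Dom C τ)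
    (hyp : ∀ t, Sch α ![s, t] → ∀ K ⊆ Dom C τ, IsCompact K →
      {g : G | g ∈ Subgroup.closure (range ![s, t]) ∧ ∃ v ∈ K, pa τ ρ g v ∈ K}.Finite) :
    Prop' C τ ρ := by
  by_contra hcon
  obtain ⟨M, hM⟩ := inf_Ad h h0 hpres hcon
  have h1 : ‖(1 : (V →L[ℝ] V) →L[ℝ] (V →L[ℝ] V))‖ ≤ 1 := ContinuousLinearMap.norm_id_le
  have : ProperSpace ((V →L[ℝ] V) →L[ℝ] (V →L[ℝ] V)) :=
    FiniteDimensional.proper ℝ ((V →L[ℝ] V) →L[ℝ] (V →L[ℝ] V))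
  obtain ⟨t, ht, c, hc, hmem, hn⟩ := partner_of_inf (R := (V →L[ℝ] V) →L[ℝ] (V →L[ℝ] V)) hα
    hmin h1 (Ad ρ) hM hs
  obtain ⟨ε₀, hε₀, K, hKD, hKc, hoK, hK⟩ := exists_nbhd h ho
  obtain ⟨δ, hδ, h2⟩ := displ_small h hpres ho hε₀
  have h3 : Tendsto (fun k : ℕ => (1 / 16 * (1 / 2) ^ k : ℝ)) atTop (𝓝 0) := by
    have := (tendsto_pow_atTop_nhds_zero_of_lt_one (r := (1 / 2 : ℝ)) (by norm_num)
      (by norm_num)).const_mul (1 / 16)
    simpa using this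
  obtain ⟨N, hN⟩ := eventually_atTop.1 (h3.eventually (eventually_le_nhds hδ))
  refine Set.infinite_of_injective_forall_mem (f := fun k => c (N + k))
    (fun k l hkl => by have := hc hkl; omega) (fun k => ?_) (hyp t ht K hKD hKc)
  refine ⟨hmem _, o, hoK, hK _ (pa_dom h hpres _ ho) (h2 _ ((hn _).trans (hN _ (by omega))))⟩

/-- The action is proper if the displacement of a point by the elements with prescribed dynamics is
bounded below. -/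
theorem prop_of_pq {P Q : Set X} (hP : (interior P).Nonempty) (hQ : (interior Q).Nonempty) {o : V}
    (ho : o ∈ Dom C τ) {ε : ℝ} (hε : 0 < ε)
    (hyp : ∀ g, (∀ x ∉ Q, α g x ∈ P) → ε ≤ ‖pa τ ρ g o - o‖) : Prop' C τ ρ := by
  by_contra hcon
  obtain ⟨M, hM⟩ := inf_Ad h h0 hpres hcon
  have : ProperSpace ((V →L[ℝ] V) →L[ℝ] (V →L[ℝ] V)) :=
    FiniteDimensional.proper ℝ ((V →L[ℝ] V) →L[ℝ] (V →L[ℝ] V))
  obtain ⟨δ, hδ, h2⟩ := displ_small h hpres ho (half_pos hε)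
  obtain ⟨g, hg, hn⟩ := pq_of_inf (R := (V →L[ℝ] V) →L[ℝ] (V →L[ℝ] V)) hα hmin (Ad ρ) hM
    isOpen_interior hP isOpen_interior hQ hδ
  have h1 := hyp g fun x hx => interior_subset (hg x fun h0 => hx (interior_subset h0))
  linarith [h2 g hn]

/-- Approximation by elements in ping-pong position. -/
theorem sch_of_not_prop (hp : ¬ Prop' C τ ρ) {m : ℕ} (f : Fin m → G) {ε : ℝ} (hε : 0 < ε) :
    ∃ a : Fin m → G, Sch α a ∧ ∀ i, ∀ A : V →L[ℝ] V,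
      ‖((ρ (a i) : V →L[ℝ] V).comp (A.comp (ρ (a i)⁻¹ : V →L[ℝ] V))) -
        ((ρ (f i) : V →L[ℝ] V).comp (A.comp (ρ (f i)⁻¹ : V →L[ℝ] V)))‖ ≤ ε * ‖A‖ := by
  obtain ⟨M, hM⟩ := inf_Ad h h0 hpres hp
  have : ProperSpace ((V →L[ℝ] V) →L[ℝ] (V →L[ℝ] V)) :=
    FiniteDimensional.proper ℝ ((V →L[ℝ] V) →L[ℝ] (V →L[ℝ] V))
  obtain ⟨a, ha, h2⟩ := sch_near (R := (V →L[ℝ] V) →L[ℝ] (V →L[ℝ] V)) hα hmin (Ad ρ) hM f hε
  refine ⟨a, ha, fun i A => ?_⟩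
  have h3 := (((Ad ρ (a i) : ((V →L[ℝ] V) →L[ℝ] (V →L[ℝ] V))ˣ) :
    (V →L[ℝ] V) →L[ℝ] (V →L[ℝ] V)) - ((Ad ρ (f i) : ((V →L[ℝ] V) →L[ℝ] (V →L[ℝ] V))ˣ) :
    (V →L[ℝ] V) →L[ℝ] (V →L[ℝ] V))).le_opNorm A
  exact h3.trans (mul_le_mul_of_nonneg_right (h2 i) (norm_nonneg A))

end Pool.Agent.H72.In
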