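import Pool.Agent.H72.In.I11

/-!
# Normal subgroups and one conjugacy class
-/

set_option autoImplicit false

open Filter Topology Set Metric Pool.Agent.TH289.C Pool.Agent.H72.Dj

namespace Pool.Agent.H72.In

section A

variable {G : Type} [Group G] {X : Type} [MetricSpace X] {α : G →* (X ≃ₜ X)}
variable {L : Type} [Group L] [TopologicalSpace L] {ρ : G →* L}

theorem conv_sub (hα : IsConvergenceAction α) (N : Subgroup G) :
    IsConvergenceAction (α.comp N.subtype) := by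
  intro g hg
  obtain ⟨φ, hφ, p, q, h⟩ := hα (fun n => (g n : G))
    ((Subtype.val_injective (p := fun x => x ∈ N)).tendsto_cofinite.comp hg)
  exact ⟨φ, hφ, p, q, h⟩

variable [CompactSpace X] [Infinite X] (hα : IsConvergenceAction α)
  (hmin : ∀ x, Dense (range fun g => α g x)) {N : Subgroup G} (hn : N.Normal)
  (hN : (N : Set G).Infinite)

include hα hmin hn hN

/-- An infinite normal subgroup is minimal. -/
theorem min_sub (x : X) : Dense (range fun g : N => α.comp N.subtype g x) := by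
  rw [dense_iff_inter_open]
  intro U hU hne
  set e := hN.natEmbedding
  have hinj : Function.Injective fun n => (e n : G) := fun m n h => e.injective (Subtype.ext h)
  obtain ⟨φ, hφ, a, b, hab⟩ := hα (fun n => (e n : G)) (tendsto_cofinite_of_inj hinj)
  have hab' : Conv α (fun n => (e (φ n) : G)) a b := hab
  obtain ⟨f, hf, hfx⟩ := exists_avoid hmin hU hne a b x
  have h1 := (Conv.conj hab' f).tendsto (Ne.symm hfx)
  obtain ⟨n, hn'⟩ := (h1.eventually (hU.mem_nhds hf)).exists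
  exact ⟨_, hn', ⟨f * (e (φ n) : G) * f⁻¹, hn.conj_mem _ (e (φ n)).2 f⟩, rfl⟩

/-- Arbitrary dynamics in the normal subgroup. -/
theorem dyn_sub {U U' : Set X} (hU : IsOpen U) (hne : U.Nonempty) (hU' : IsOpen U')
    (hne' : U'.Nonempty) : ∃ n ∈ N, ∀ x ∉ U', α n x ∈ U := by
  have : Infinite N := hN.to_subtype
  have hNP : NP (1 : N →* Multiplicative (ZMod 1)) :=
    np_of_ker (by simpa using (Set.infinite_univ : (univ : Set N).Infinite))
  obtain ⟨n, -, h⟩ := ind_of_np (conv_sub hα N) (min_sub hα hmin hn hN) hNP U U' hU hne hU' hne' 1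
    univ univ_mem
  exact ⟨n, n.2, h⟩

/-- Elements of the normal subgroup near the identity with arbitrary dynamics. -/
theorem ind_sub_one [IsTopologicalGroup L] (h : Ind α ρ) {U U' : Set X} (hU : IsOpen U)
    (hne : U.Nonempty) (hU' : IsOpen U') (hne' : U'.Nonempty) {W : Set L} (hW : W ∈ 𝓝 (1 : L)) :
    ∃ n ∈ N, ρ n ∈ W ∧ ∀ x ∉ U', α n x ∈ U := by
  obtain ⟨y₀, hy₀⟩ := hne
  -- a small pair of sets in `U'`
  have hV : IsOpen (U' ∩ {y₀}ᶜ) := hU'.inter isOpen_compl_singleton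
  have hVne : (U' ∩ {y₀}ᶜ).Nonempty := by
    have h1 := open_infinite hmin hU' hne'
    obtain ⟨z, hz, hz'⟩ := (h1.sdiff (Set.finite_singleton y₀)).nonempty
    exact ⟨z, hz, hz'⟩
  obtain ⟨P, Q, hP, hQ, hPV, hQV, hd, ⟨y₁, hy₁, hy₁P, hy₁Q⟩, hPi, hQi⟩ :=
    exists_two hV (open_infinite hmin hV hVne)
  obtain ⟨n₀, hn₀, h₀⟩ := dyn_sub hα hmin hn hN isOpen_interior hPi isOpen_interior hQi
  have h₀' : ∀ x ∉ Q, α n₀ x ∈ P := fun x hx =>
    interior_subset (h₀ x fun h0 => hx (interior_subset h0))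
  -- the open sets for the conjugating element
  have hU₂ : IsOpen (U ∩ (P ∪ Q)ᶜ) := hU.inter (hP.union hQ).isOpen_compl
  have hU₂ne : (U ∩ (P ∪ Q)ᶜ).Nonempty := ⟨y₀, hy₀, by
    rintro (h0 | h0)
    · exact (hPV h0).2 rfl
    · exact (hQV h0).2 rfl⟩
  have hO : IsOpen (P ∪ Q)ᶜ := (hP.union hQ).isOpen_compl
  have hOne : ((P ∪ Q)ᶜ : Set X).Nonempty := ⟨y₁, by
    rintro (h0 | h0)
    · exact hy₁P h0
    · exact hy₁Q h0⟩
  have hW' : {l : L | l * ρ n₀ * l⁻¹ * (ρ n₀)⁻¹ ∈ W} ∈ 𝓝 (ρ 1) := by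
    have hc : Continuous fun l : L => l * ρ n₀ * l⁻¹ * (ρ n₀)⁻¹ := by fun_prop
    refine hc.continuousAt.preimage_mem_nhds ?_
    rw [map_one, one_mul, inv_one, mul_one, mul_inv_cancel]
    exact hW
  obtain ⟨g, hgW, hg⟩ := h _ _ hU₂ hU₂ne hO hOne 1 _ hW'
  have hgPQ : ∀ x, x ∈ P ∨ x ∈ Q → α g x ∈ U ∩ (P ∪ Q)ᶜ := fun x hx => hg x fun h0 => h0 hx
  refine ⟨g * n₀ * g⁻¹ * n₀⁻¹, N.mul_mem (hn.conj_mem _ hn₀ g) (N.inv_mem hn₀), ?_, fun x hx => ?_⟩
  · simp only [map_mul, map_inv]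
    exact hgW
  · have hxP : x ∉ P := fun h0 => hx (hPV h0).1
    have h1 : α n₀⁻¹ x ∈ Q := by
      by_contra hcon
      have := h₀' _ hcon
      rw [map_inv_apply'] at this
      exact hxP this
    have h2 : α g⁻¹ (α n₀⁻¹ x) ∉ Q := by
      intro h0
      have h3 := hgPQ _ (Or.inr h0)
      rw [map_inv_apply'] at h3
      exact h3.2 (Or.inr h1)
    have h3 := hgPQ _ (Or.inl (h₀' _ h2))
    rw [map_mul_apply, map_mul_apply, map_mul_apply]
    exact h3.1

omit hα hn hN in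
/-- A conjugate in ping-pong position, by an element of the normal subgroup. -/
theorem exists_conj {s : G} (hs : Sch α (fun _ : Fin 1 => s)) {W : Set L}
    (h : ∀ U U' : Set X, IsOpen U → U.Nonempty → IsOpen U' → U'.Nonempty →
      ∃ n ∈ N, ρ n ∈ W ∧ ∀ x ∉ U', α n x ∈ U) :
    ∃ n ∈ N, ρ n ∈ W ∧ Sch α ![s, n * s * n⁻¹] := by
  obtain ⟨P, Q, hc, -, hPQ, ⟨x, hx⟩, ha⟩ := hs
  have hO : IsOpen ((P 0)ᶜ ∩ (Q 0)ᶜ) := (hc 0).1.isOpen_compl.inter (hc 0).2.isOpen_compl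
  obtain ⟨P', Q', hP', hQ', hPO, hQO, hd, ⟨y, hy, hyP, hyQ⟩, hPi, hQi⟩ :=
    exists_two hO (open_infinite hmin hO ⟨x, (hx 0).1, (hx 0).2⟩)
  obtain ⟨n, hnN, hnW, hn'⟩ := h _ _ isOpen_interior hPi isOpen_interior hQi
  have h1 : ∀ z, z ∈ P 0 ∨ z ∈ Q 0 → α n z ∈ P' := by
    intro z hz
    refine interior_subset (hn' z fun h0 => ?_)
    have h2 := hQO (interior_subset h0)
    rcases hz with hz | hz
    · exact h2.1 hz
    · exact h2.2 hz
  have h2 : ∀ z, z ∈ P 0 ∨ z ∈ Q 0 → ∀ w, w ∈ P 0 ∨ w ∈ Q 0 → α n w ≠ z := by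
    intro z hz w hw h0
    have h3 := hPO (h0 ▸ h1 w hw)
    rcases hz with hz | hz
    · exact h3.1 hz
    · exact h3.2 hz
  have d1 : Disjoint (P 0) (α n '' P 0) := disjoint_left.2 fun z hz hz' => by
    obtain ⟨w, hw, rfl⟩ := hz'
    exact h2 _ (Or.inl hz) w (Or.inl hw) rfl
  have d2 : Disjoint (Q 0) (α n '' Q 0) := disjoint_left.2 fun z hz hz' => by
    obtain ⟨w, hw, rfl⟩ := hz'
    exact h2 _ (Or.inr hz) w (Or.inr hw) rfl
  have d3 : Disjoint (P 0) (α n '' Q 0) := disjoint_left.2 fun z hz hz' => by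
    obtain ⟨w, hw, rfl⟩ := hz'
    exact h2 _ (Or.inl hz) w (Or.inr hw) rfl
  have d4 : Disjoint (α n '' P 0) (Q 0) := disjoint_left.2 fun z hz hz' => by
    obtain ⟨w, hw, rfl⟩ := hz
    exact h2 _ (Or.inr hz') w (Or.inl hw) rfl
  have d5 : Disjoint (α n '' P 0) (α n '' Q 0) :=
    (disjoint_image_iff (α n).injective).2 (hPQ 0 0)
  refine ⟨n, hnN, hnW, ![P 0, α n '' P 0], ![Q 0, α n '' Q 0], ?_, ?_, ?_, ⟨y, ?_⟩, ?_⟩
  · intro i
    fin_cases i
    · exact hc 0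
    · exact ⟨(α n).isClosedMap _ (hc 0).1, (α n).isClosedMap _ (hc 0).2⟩
  · intro i j hij
    fin_cases i <;> fin_cases j
    · exact absurd rfl hij
    · exact ⟨d1, d2⟩
    · exact ⟨d1.symm, d2.symm⟩
    · exact absurd rfl hij
  · intro i j
    fin_cases i <;> fin_cases j
    · exact hPQ 0 0
    · exact d3
    · exact d4
    · exact d5
  · intro i
    fin_cases i
    · exact ⟨hy.1, hy.2⟩
    · refine ⟨?_, ?_⟩
      · rintro ⟨w, hw, hwy⟩
        exact hyP (hwy ▸ h1 w (Or.inl hw))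
      · rintro ⟨w, hw, hwy⟩
        exact hyP (hwy ▸ h1 w (Or.inr hw))
  · intro i z hz
    fin_cases i
    · exact ha 0 z hz
    · change α (n * s * n⁻¹) z ∈ α n '' P 0
      rw [map_mul_apply, map_mul_apply]
      refine ⟨_, ha 0 _ fun h0 => hz ⟨_, h0, ?_⟩, rfl⟩
      exact map_inv_apply' α n z

end A

section Comm

/-- Iterated commutators of the quotient of two generators of a free group and one of them. -/
theorem cs_inj' {G : Type} [Group G] {s t : G}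
    (h : Function.Injective (FreeGroup.lift ![s, t])) :
    Function.Injective (cs (t * s⁻¹) s) := by
  classical
  have h1 : Function.Injective (cs (FreeGroup.of 1 * (FreeGroup.of 0)⁻¹)
      (FreeGroup.of 0 : FreeGroup (Fin 2))) := by
    intro k l hkl
    set ψ : FreeGroup (Fin 2) →* Equiv.Perm ℚ := FreeGroup.lift
      ![Equiv.addRight 1, Equiv.mulLeft₀ 3 (by norm_num) * Equiv.addRight 1] with hψ
    have h2 := congrArg ψ hkl
    have h0 : ψ (FreeGroup.of 0) = Equiv.addRight 1 := by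
      rw [hψ, FreeGroup.lift_apply_of]
      rfl
    have h1' : ψ (FreeGroup.of 1) = Equiv.mulLeft₀ 3 (by norm_num) * Equiv.addRight 1 := by
      rw [hψ, FreeGroup.lift_apply_of]
      rfl
    rw [map_cs, map_cs, map_mul, map_inv, h0, h1', mul_inv_cancel_right] at h2
    have h3 := congrArg (fun e : Equiv.Perm ℚ => e 0) h2
    rw [cs_perm, cs_perm, zero_add, zero_add] at h3
    exact Nat.pow_right_injective le_rfl (by exact_mod_cast h3)
  intro k l hkl
  refine h1 (h ?_)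
  rw [map_cs, map_cs]
  simpa using hkl

variable {G : Type} [Group G] {R : Type} [NormedRing R] (h1R : ‖(1 : R)‖ ≤ 1)

include h1R

/-- The commutator of an element near the identity and a given one. -/
theorem comm_near' (b : Rˣ) {η : ℝ} (hη : 0 < η) : ∃ δ : ℝ, 0 < δ ∧ ∀ a : Rˣ,
    ‖(a : R) - 1‖ ≤ δ → ‖((a * b * a⁻¹ * b⁻¹ : Rˣ) : R) - 1‖ ≤ η := by
  set M : ℝ := ‖(b : R)‖ * ‖((b⁻¹ : Rˣ) : R)‖ with hM
  have hM0 : 0 ≤ M := by positivity
  refine ⟨min (1 / 16) (η / (4 * (1 + M))), by positivity, fun a ha => ?_⟩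
  have ha' := norm_inv_le h1R (ha.trans (min_le_left _ _))
  have e : ((a * b * a⁻¹ * b⁻¹ : Rˣ) : R) - 1 = (((a : R) - 1) * b - b * ((a : R) - 1)) *
      ((a⁻¹ : Rˣ) : R) * ((b⁻¹ : Rˣ) : R) := by
    have e1 : (((a : R) - 1) * b - b * ((a : R) - 1)) = (a : R) * b - b * a := by noncomm_ring
    rw [e1, sub_mul, sub_mul, mul_assoc (b : R) a, Units.mul_inv, mul_one, Units.mul_inv]
    push_cast
    rfl
  rw [e]
  calc _ ≤ ‖(((a : R) - 1) * b - b * ((a : R) - 1)) * ((a⁻¹ : Rˣ) : R)‖ *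
        ‖((b⁻¹ : Rˣ) : R)‖ := norm_mul_le _ _
    _ ≤ (‖((a : R) - 1) * b - b * ((a : R) - 1)‖ * ‖((a⁻¹ : Rˣ) : R)‖) *
        ‖((b⁻¹ : Rˣ) : R)‖ := by gcongr; exact norm_mul_le _ _
    _ ≤ ((‖(a : R) - 1‖ * ‖(b : R)‖ + ‖(b : R)‖ * ‖(a : R) - 1‖) * 2) * ‖((b⁻¹ : Rˣ) : R)‖ := by
        gcongr
        exact (norm_sub_le _ _).trans (add_le_add (norm_mul_le _ _) (norm_mul_le _ _))
    _ = 4 * ‖(a : R) - 1‖ * M := by rw [hM]; ring
    _ ≤ 4 * (η / (4 * (1 + M))) * M := by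
        gcongr
        exact ha.trans (min_le_right _ _)
    _ ≤ 4 * (η / (4 * (1 + M))) * (1 + M) := by
        gcongr
        linarith
    _ = η := by field_simp

/-- A given element and its conjugate by an element sufficiently near the identity. -/
theorem conj_seq (ρ : G →* Rˣ) (s : G) : ∃ δ : ℝ, 0 < δ ∧ ∀ t : G, ‖(ρ t : R) - 1‖ ≤ δ →
    Function.Injective (FreeGroup.lift ![s, t * s * t⁻¹]) →
    ∃ c : ℕ → G, Function.Injective c ∧
      (∀ k, c k ∈ Subgroup.closure (range ![s, t * s * t⁻¹])) ∧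
      ∀ k, ‖(ρ (c k) : R) - 1‖ ≤ 1 / 16 * (1 / 2) ^ k := by
  obtain ⟨δ, hδ, hδ16, h⟩ := comm_near h1R (ρ s)
  obtain ⟨δ', hδ', h'⟩ := comm_near' h1R (ρ s) hδ
  refine ⟨δ', hδ', fun t ht hfree => ?_⟩
  set u : G := t * s * t⁻¹ * s⁻¹ with hu
  have hinj : Function.Injective (cs u s) := cs_inj' hfree
  have hs : s ∈ Subgroup.closure (range ![s, t * s * t⁻¹]) :=
    Subgroup.subset_closure ⟨0, rfl⟩
  have ht' : t * s * t⁻¹ ∈ Subgroup.closure (range ![s, t * s * t⁻¹]) :=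
    Subgroup.subset_closure ⟨1, rfl⟩
  have hu' : u ∈ Subgroup.closure (range ![s, t * s * t⁻¹]) :=
    Subgroup.mul_mem _ ht' (Subgroup.inv_mem _ hs)
  have hun : ‖(ρ u : R) - 1‖ ≤ δ := by
    have := h' (ρ t) ht
    rw [hu]
    simpa only [map_mul, map_inv] using this
  have hcs : ∀ k, cs u s (k + 1) = cs u (u * s * u⁻¹ * s⁻¹) k := by
    intro k
    induction k with
    | zero => rfl
    | succ k ih =>
      change u * cs u s (k + 1) * u⁻¹ * (cs u s (k + 1))⁻¹ = _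
      rw [ih]
      rfl
  refine ⟨fun k => cs u s (k + 1), fun j k hjk => by
    have := hinj hjk
    omega, fun k => cs_mem _ hu' hs _, fun k => ?_⟩
  simp only
  rw [hcs, map_cs]
  refine norm_cs_le h1R (hun.trans hδ16) ?_ k
  have := h (ρ u) hun
  simpa only [map_mul, map_inv] using this

end Comm

end Pool.Agent.H72.In
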