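import Pool.Agent.H72.In.I12

/-!
# Criteria with one conjugacy class and one normal subgroup
-/

set_option autoImplicit false

open Filter Topology Set Metric
open Pool.Agent.TH289.C (IsConvergenceAction Sph)

namespace Pool.Agent.H72.In

section Gen

variable {G : Type} [Group G] {X : Type} [MetricSpace X] {α : G →* (X ≃ₜ X)}
variable [CompactSpace X] [Infinite X] (hα : IsConvergenceAction α)
  (hmin : ∀ x, Dense (range fun g => α g x)) {N : Subgroup G} (hn : N.Normal)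
  (hN : (N : Set G).Infinite)

include hα hmin hn hN

variable {R : Type} [NormedRing R]

theorem ball_nhds {δ : ℝ} (hδ : 0 < δ) : {w : Rˣ | ‖(w : R) - 1‖ < δ} ∈ 𝓝 (1 : Rˣ) := by
  have hc : Continuous fun w : Rˣ => ‖(w : R) - 1‖ :=
    (Units.continuous_val.sub continuous_const).norm
  refine (isOpen_lt hc continuous_const).mem_nhds ?_
  change ‖((1 : Rˣ) : R) - 1‖ < δ
  rw [Units.val_one, sub_self, norm_zero]
  exact hδ

theorem exists_bad_conj (h1R : ‖(1 : R)‖ ≤ 1) {ρ : G →* Rˣ} (h : Ind α ρ) {s : G}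
    (hs : Sch α (fun _ : Fin 1 => s)) : ∃ n ∈ N, Sch α ![s, n * s * n⁻¹] ∧
      ∃ c : ℕ → G, Function.Injective c ∧
      (∀ k, c k ∈ Subgroup.closure (range ![s, n * s * n⁻¹])) ∧
      ∀ k, ‖(ρ (c k) : R) - 1‖ ≤ 1 / 16 * (1 / 2) ^ k := by
  obtain ⟨δ, hδ, h1⟩ := conj_seq h1R ρ s
  obtain ⟨n, hnN, hnW, hsch⟩ := exists_conj hmin (N := N) (ρ := ρ) hs
    (W := {w : Rˣ | ‖(w : R) - 1‖ < δ}) (fun U U' hU hne hU' hne' =>
      ind_sub_one hα hmin hn hN h hU hne hU' hne' (ball_nhds hα hmin hn hN hδ))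
  exact ⟨n, hnN, hsch, h1 n (le_of_lt hnW) (hsch.free le_rfl)⟩

theorem exists_bad_conj' (h1R : ‖(1 : R)‖ ≤ 1) {ρ : G →* Rˣ} (h : NP ρ) {s : G}
    (hs : Sch α (fun _ : Fin 1 => s)) : ∃ n ∈ N, Sch α ![s, n * s * n⁻¹] ∧
      NP (ρ.comp (Subgroup.closure (range ![s, n * s * n⁻¹])).subtype) := by
  obtain ⟨n, hnN, hsch, c, hc, hmem, hb⟩ :=
    exists_bad_conj hα hmin hn hN h1R (ind_of_np hα hmin h) hs
  refine ⟨n, hnN, hsch, fun k => ⟨c k, hmem k⟩, 1,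
    fun j k hjk => hc (congrArg Subtype.val hjk), ?_⟩
  exact tendsto_units (c := fun k => ρ (c k)) h1R hb

variable [ProperSpace R]

theorem conj_of_inf (h1R : ‖(1 : R)‖ ≤ 1) (ρ : G →* Rˣ) {M : ℝ}
    (hinf : {g : G | ‖(ρ g : R)‖ ≤ M ∧ ‖(ρ g⁻¹ : R)‖ ≤ M}.Infinite) {s : G}
    (hs : Sch α (fun _ : Fin 1 => s)) : ∃ n ∈ N, Sch α ![s, n * s * n⁻¹] ∧
      ∃ c : ℕ → G, Function.Injective c ∧
      (∀ k, c k ∈ Subgroup.closure (range ![s, n * s * n⁻¹])) ∧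
      ∀ k, ‖(ρ (c k) : R) - 1‖ ≤ 1 / 16 * (1 / 2) ^ k :=
  exists_bad_conj hα hmin hn hN h1R (ind_of_np hα hmin (lim_of_bdd ρ hinf)) hs

theorem pq_sub_of_inf (ρ : G →* Rˣ) {M : ℝ}
    (hinf : {g : G | ‖(ρ g : R)‖ ≤ M ∧ ‖(ρ g⁻¹ : R)‖ ≤ M}.Infinite) {U U' : Set X}
    (hU : IsOpen U) (hne : U.Nonempty) (hU' : IsOpen U') (hne' : U'.Nonempty) {ε : ℝ}
    (hε : 0 < ε) : ∃ g ∈ N, (∀ x ∉ U', α g x ∈ U) ∧ ‖(ρ g : R) - 1‖ ≤ ε := by
  obtain ⟨g, hgN, hg, h⟩ := ind_sub_one hα hmin hn hN (ind_of_np hα hmin (lim_of_bdd ρ hinf))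
    hU hne hU' hne' (ball_nhds hα hmin hn hN hε)
  exact ⟨g, hgN, h, le_of_lt hg⟩

end Gen

section Hyp

open Pool.Agent.TH631.RC

variable {E : Type} [NormedAddCommGroup E] [InnerProductSpace ℝ E] [FiniteDimensional ℝ E]
variable {G : Type} [Group G] {ρ : HypAction G E}
variable {X : Type} [MetricSpace X] {α : G →* (X ≃ₜ X)}
variable [CompactSpace X] [Infinite X] (hα : IsConvergenceAction α)
  (hmin : ∀ x, Dense (range fun g => α g x)) {N : Subgroup G} (hn : N.Normal)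
  (hN : (N : Set G).Infinite)

include hα hmin hn hN

/-- The action is proper if it is proper on the subgroups generated by one loxodromic element and its
conjugates by elements of an infinite normal subgroup in ping-pong position. -/
theorem fin_of_conj {s : G} (hs : Sch α (fun _ : Fin 1 => s))
    (h : ∀ n ∈ N, Sch α ![s, n * s * n⁻¹] →
      {g : G | g ∈ Subgroup.closure (range ![s, n * s * n⁻¹]) ∧ T ρ g ≤ 2}.Finite)
    (R : ℝ) : {g : G | T ρ g ≤ R}.Finite := by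
  by_contra hcon
  obtain ⟨M, hM⟩ := inf_un (ρ := ρ) (fun h0 => hcon (h0 R))
  have h1 : ‖(1 : (ℝ × E) →L[ℝ] (ℝ × E))‖ ≤ 1 := ContinuousLinearMap.norm_id_le
  have : ProperSpace ((ℝ × E) →L[ℝ] (ℝ × E)) :=
    FiniteDimensional.proper ℝ ((ℝ × E) →L[ℝ] (ℝ × E))
  obtain ⟨n, hnN, ht, c, hc, hmem, hb⟩ := conj_of_inf (R := (ℝ × E) →L[ℝ] (ℝ × E)) hα hmin hn hN
    h1 (un ρ) hM hs
  refine Set.infinite_of_injective_forall_mem hc (fun k => ?_) (h n hnN ht)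
  refine ⟨hmem k, ?_⟩
  have h2 : (1 / 2 : ℝ) ^ k ≤ 1 := pow_le_one₀ (by norm_num) (by norm_num)
  exact (T_le_of_norm (hb k)).trans (by linarith)

/-- The action is proper if the displacement of the base point is bounded below for the elements of an
infinite normal subgroup with prescribed dynamics. -/
theorem fin_of_pq_sub {P Q : Set X} (hP : (interior P).Nonempty) (hQ : (interior Q).Nonempty)
    {ε : ℝ} (hε : 0 < ε) (h : ∀ g ∈ N, (∀ x ∉ Q, α g x ∈ P) → 1 + ε ≤ T ρ g) (R : ℝ) :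
    {g : G | T ρ g ≤ R}.Finite := by
  by_contra hcon
  obtain ⟨M, hM⟩ := inf_un (ρ := ρ) (fun h0 => hcon (h0 R))
  have : ProperSpace ((ℝ × E) →L[ℝ] (ℝ × E)) :=
    FiniteDimensional.proper ℝ ((ℝ × E) →L[ℝ] (ℝ × E))
  obtain ⟨g, hgN, hg, hb⟩ := pq_sub_of_inf (R := (ℝ × E) →L[ℝ] (ℝ × E)) hα hmin hn hN (un ρ) hM
    isOpen_interior hP isOpen_interior hQ (half_pos hε)
  have h1 := h g hgN fun x hx => interior_subset (hg x fun h0 => hx (interior_subset h0))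
  linarith [T_le_of_norm hb]

end Hyp

section Cone

open Pool.Agent.TH289.C Pool.Agent.H72.Dj

variable {V : Type} [NormedAddCommGroup V] [NormedSpace ℝ V] [FiniteDimensional ℝ V]
variable {G : Type} [Group G] {ρ : G →* (V ≃L[ℝ] V)} {C : Set V} {τ : V →L[ℝ] ℝ}
variable {X : Type} [MetricSpace X] {α : G →* (X ≃ₜ X)}
variable [CompactSpace X] [Infinite X] (hα : IsConvergenceAction α)
  (hmin : ∀ x, Dense (range fun g => α g x)) {N : Subgroup G} (hn : N.Normal)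
  (hN : (N : Set G).Infinite) (h : IsStrictCone C τ) (h0 : (0 : V) ∉ C)
  (hpres : ∀ g, ∀ v ∈ C, ρ g v ∈ C)

include hα hmin hn hN h h0 hpres

/-- The action is proper if it is proper on the subgroups generated by one loxodromic element and its
conjugates by elements of an infinite normal subgroup in ping-pong position. -/
theorem prop_of_conj {s : G} (hs : Sch α (fun _ : Fin 1 => s)) {o : V} (ho : o ∈ Dom C τ)
    (hyp : ∀ n ∈ N, Sch α ![s, n * s * n⁻¹] → ∀ K ⊆ Dom C τ, IsCompact K →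
      {g : G | g ∈ Subgroup.closure (range ![s, n * s * n⁻¹]) ∧
        ∃ v ∈ K, pa τ ρ g v ∈ K}.Finite) : Prop' C τ ρ := by
  by_contra hcon
  obtain ⟨M, hM⟩ := inf_Ad h h0 hpres hcon
  have h1 : ‖(1 : (V →L[ℝ] V) →L[ℝ] (V →L[ℝ] V))‖ ≤ 1 := ContinuousLinearMap.norm_id_le
  have : ProperSpace ((V →L[ℝ] V) →L[ℝ] (V →L[ℝ] V)) :=
    FiniteDimensional.proper ℝ ((V →L[ℝ] V) →L[ℝ] (V →L[ℝ] V))
  obtain ⟨n, hnN, ht, c, hc, hmem, hb⟩ := conj_of_inf (R := (V →L[ℝ] V) →L[ℝ] (V →L[ℝ] V)) hα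
    hmin hn hN h1 (Ad ρ) hM hs
  obtain ⟨ε₀, hε₀, K, hKD, hKc, hoK, hK⟩ := exists_nbhd h ho
  obtain ⟨δ, hδ, h2⟩ := displ_small h hpres ho hε₀
  have h3 : Tendsto (fun k : ℕ => (1 / 16 * (1 / 2) ^ k : ℝ)) atTop (𝓝 0) := by
    have := (tendsto_pow_atTop_nhds_zero_of_lt_one (r := (1 / 2 : ℝ)) (by norm_num)
      (by norm_num)).const_mul (1 / 16)
    simpa using this
  obtain ⟨N', hN'⟩ := eventually_atTop.1 (h3.eventually (eventually_le_nhds hδ))
  refine Set.infinite_of_injective_forall_mem (f := fun k => c (N' + k))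
    (fun k l hkl => by have := hc hkl; omega) (fun k => ?_) (hyp n hnN ht K hKD hKc)
  refine ⟨hmem _, o, hoK, hK _ (pa_dom h hpres _ ho) (h2 _ ((hb _).trans (hN' _ (by omega))))⟩

/-- The action is proper if the displacement of a point by the elements of an infinite normal subgroup
with prescribed dynamics is bounded below. -/
theorem prop_of_pq_sub {P Q : Set X} (hP : (interior P).Nonempty) (hQ : (interior Q).Nonempty)
    {o : V} (ho : o ∈ Dom C τ) {ε : ℝ} (hε : 0 < ε)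
    (hyp : ∀ g ∈ N, (∀ x ∉ Q, α g x ∈ P) → ε ≤ ‖pa τ ρ g o - o‖) : Prop' C τ ρ := by
  by_contra hcon
  obtain ⟨M, hM⟩ := inf_Ad h h0 hpres hcon
  have : ProperSpace ((V →L[ℝ] V) →L[ℝ] (V →L[ℝ] V)) :=
    FiniteDimensional.proper ℝ ((V →L[ℝ] V) →L[ℝ] (V →L[ℝ] V))
  obtain ⟨δ, hδ, h2⟩ := displ_small h hpres ho (half_pos hε)
  obtain ⟨g, hgN, hg, hb⟩ := pq_sub_of_inf (R := (V →L[ℝ] V) →L[ℝ] (V →L[ℝ] V)) hα hmin hn hN
    (Ad ρ) hM isOpen_interior hP isOpen_interior hQ hδ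
  have h1 := hyp g hgN fun x hx => interior_subset (hg x fun h0 => hx (interior_subset h0))
  linarith [h2 g hb]

end Cone

end Pool.Agent.H72.In
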