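import Pool.Agent.H72.In.I1

/-!
# Schottky subgroups with prescribed images
-/

set_option autoImplicit false

open Filter Topology Set Metric Pool.Agent.TH289.C Pool.Agent.H72.Dj

namespace Pool.Agent.H72.In

section A

variable {G : Type} [Group G] {X : Type} [MetricSpace X]

/-- Ping-pong position. -/
def Sch (α : G →* (X ≃ₜ X)) {m : ℕ} (a : Fin m → G) : Prop :=
  ∃ P Q : Fin m → Set X, (∀ i, IsClosed (P i) ∧ IsClosed (Q i)) ∧
    (∀ i j, i ≠ j → Disjoint (P i) (P j) ∧ Disjoint (Q i) (Q j)) ∧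
    (∀ i j, Disjoint (P i) (Q j)) ∧ (∃ x, ∀ i, x ∉ P i ∧ x ∉ Q i) ∧
    ∀ i, ∀ x ∉ Q i, α (a i) x ∈ P i

variable {α : G →* (X ≃ₜ X)} {m : ℕ} {a : Fin m → G}

/-- The elements generate a free group. -/
theorem Sch.free (h : Sch α a) (hm : 2 ≤ m) : Function.Injective (FreeGroup.lift a) := by
  obtain ⟨P, Q, hc, hd, hPQ, ⟨x, hx⟩, ha⟩ := h
  letI : MulAction G X :=
    { smul := fun g x => α g x
      one_smul := fun x => by change α 1 x = x; rw [map_one]; rfl
      mul_smul := fun g h x => map_mul_apply α g h x }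
  have : Nontrivial (Fin m) := Fin.nontrivial_iff_two_le.2 hm
  refine FreeGroup.injective_lift_of_ping_pong a P Q (fun i => ⟨α (a i) x, ha i x (hx i).2⟩)
    (fun i j hij => (hd i j hij).1) (fun i j hij => (hd i j hij).2) hPQ ?_ ?_
  · rintro i _ ⟨y, hy, rfl⟩
    exact ha i y hy
  · rintro i _ ⟨y, hy, rfl⟩
    by_contra hcon
    refine hy ?_
    have h1 := ha i _ hcon
    have h2 : α (a i) (α (a i)⁻¹ y) ∈ P i := h1
    rwa [map_inv_apply'] at h2

/-- The elements have infinite order. -/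
theorem Sch.pow_inj (h : Sch α a) (i : Fin m) : Function.Injective fun k : ℕ => (a i) ^ k := by
  obtain ⟨P, Q, hc, hd, hPQ, ⟨x, hx⟩, ha⟩ := h
  have h1 : ∀ k : ℕ, α ((a i) ^ (k + 1)) x ∈ P i := by
    intro k
    induction k with
    | zero => rw [zero_add, pow_one]; exact ha i x (hx i).2
    | succ k ih =>
      rw [pow_succ', map_mul_apply]
      exact ha i _ fun h0 => disjoint_left.1 (hPQ i i) ih h0
  have h2 : ∀ k : ℕ, (a i) ^ (k + 1) ≠ 1 := by
    intro k h0
    have := h1 k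
    rw [h0, map_one] at this
    exact (hx i).1 this
  intro j k hjk
  have key : ∀ j k : ℕ, j < k → (a i) ^ j ≠ (a i) ^ k := by
    intro j k hjk h0
    obtain ⟨d, rfl⟩ := Nat.exists_eq_add_of_lt hjk
    rw [add_assoc, pow_add] at h0
    exact h2 d (mul_left_cancel (a := (a i) ^ j) (by rw [mul_one]; exact h0.symm))
  rcases lt_trichotomy j k with h3 | h3 | h3
  · exact absurd hjk (key j k h3)
  · exact h3
  · exact absurd hjk.symm (key k j h3)

end A

section B

variable {G : Type} [Group G] {X : Type} [MetricSpace X] {α : G →* (X ≃ₜ X)}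

/-- Disjoint closed sets with nonempty interior, which do not cover the space. -/
theorem exists_sets [Infinite X] (m : ℕ) : ∃ P Q : Fin m → Set X,
    (∀ i, IsClosed (P i) ∧ IsClosed (Q i)) ∧
    (∀ i j, i ≠ j → Disjoint (P i) (P j) ∧ Disjoint (Q i) (Q j)) ∧
    (∀ i j, Disjoint (P i) (Q j)) ∧ (∃ x, ∀ i, x ∉ P i ∧ x ∉ Q i) ∧
    ∀ i, (interior (P i)).Nonempty ∧ (interior (Q i)).Nonempty := by
  set e := Infinite.natEmbedding X with he
  obtain ⟨U, hU, hd⟩ := (Set.finite_range fun i : Fin (2 * m + 1) => e i).t2_separation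
  have h1 : ∀ x : X, ∃ r : ℝ, 0 < r ∧ closedBall x r ⊆ U x := fun x =>
    nhds_basis_closedBall.mem_iff.1 ((hU x).2.mem_nhds (hU x).1)
  choose r hr hrU using h1
  have hdis : ∀ i j : ℕ, i < 2 * m + 1 → j < 2 * m + 1 → i ≠ j →
      Disjoint (closedBall (e i) (r (e i))) (closedBall (e j) (r (e j))) := by
    intro i j hi hj hij
    have h2 := hd ⟨⟨i, hi⟩, rfl⟩ ⟨⟨j, hj⟩, rfl⟩ (fun h0 => hij (e.injective h0))
    exact h2.mono (hrU _) (hrU _)
  have hint : ∀ x : X, (interior (closedBall x (r x))).Nonempty := fun x =>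
    ⟨x, mem_interior_iff_mem_nhds.2 (closedBall_mem_nhds x (hr x))⟩
  refine ⟨fun i => closedBall (e (2 * (i : ℕ))) (r (e (2 * (i : ℕ)))),
    fun i => closedBall (e (2 * (i : ℕ) + 1)) (r (e (2 * (i : ℕ) + 1))),
    fun i => ⟨isClosed_closedBall, isClosed_closedBall⟩, fun i j hij => ⟨?_, ?_⟩, fun i j => ?_,
    ⟨e (2 * m), fun i => ⟨fun h0 => ?_, fun h0 => ?_⟩⟩, fun i => ⟨hint _, hint _⟩⟩
  · have h2 : (i : ℕ) ≠ j := fun h0 => hij (Fin.ext h0)
    exact hdis _ _ (by omega) (by omega) (by omega)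
  · have h2 : (i : ℕ) ≠ j := fun h0 => hij (Fin.ext h0)
    exact hdis _ _ (by omega) (by omega) (by omega)
  · exact hdis _ _ (by omega) (by omega) (by omega)
  · have := hdis (2 * (i : ℕ)) (2 * m) (by omega) (by omega) (by omega)
    exact disjoint_left.1 this h0 (mem_closedBall_self (hr _).le)
  · have := hdis (2 * (i : ℕ) + 1) (2 * m) (by omega) (by omega) (by omega)
    exact disjoint_left.1 this h0 (mem_closedBall_self (hr _).le)

/-- Arbitrary dynamics near any element. -/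
theorem pingpong' [CompactSpace X] [Infinite X] (hα : IsConvergenceAction α)
    (hmin : ∀ x, Dense (range fun g => α g x)) {L : Type} [Group L] [TopologicalSpace L]
    [IsTopologicalGroup L] (ρ : G →* L) {g : ℕ → G} {u : L} (hg : Function.Injective g)
    (hu : Tendsto (fun k => ρ (g k)) atTop (𝓝 u)) {U U' : Set X} (hU : IsOpen U)
    (hne : U.Nonempty) (hU' : IsOpen U') (hne' : U'.Nonempty) {W : Set L} (f : G)
    (hW : W ∈ 𝓝 (ρ f)) :
    ∃ g, ρ g ∈ W ∧ ∀ x ∉ U', α g x ∈ U := by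
  have h1 : (fun l => ρ f * l) ⁻¹' W ∈ 𝓝 (1 : L) :=
    (continuous_const_mul (ρ f)).continuousAt.preimage_mem_nhds (by rw [mul_one]; exact hW)
  obtain ⟨x, hx⟩ := hne
  obtain ⟨g, hg1, hg2⟩ := pingpong hα hmin ρ hg hu (hU.preimage (α f).continuous)
    ⟨α f⁻¹ x, by
      change α f (α f⁻¹ x) ∈ U
      rw [map_inv_apply']
      exact hx⟩ hU' hne' h1
  refine ⟨f * g, by rw [map_mul]; exact hg1, fun x hx => ?_⟩
  rw [map_mul_apply]
  exact hg2 x hx

/-- **Schottky subgroups near any elements.** -/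
theorem exists_sch [CompactSpace X] [Infinite X] (hα : IsConvergenceAction α)
    (hmin : ∀ x, Dense (range fun g => α g x)) {L : Type} [Group L] [TopologicalSpace L]
    [IsTopologicalGroup L] (ρ : G →* L) {g : ℕ → G} {u : L} (hg : Function.Injective g)
    (hu : Tendsto (fun k => ρ (g k)) atTop (𝓝 u)) {m : ℕ} (f : Fin m → G)
    {W : Fin m → Set L} (hW : ∀ i, W i ∈ 𝓝 (ρ (f i))) :
    ∃ a : Fin m → G, Sch α a ∧ ∀ i, ρ (a i) ∈ W i := by
  obtain ⟨P, Q, h1, h2, h3, h4, h5⟩ := exists_sets (X := X) m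
  choose a ha ha' using fun i => pingpong' hα hmin ρ hg hu isOpen_interior (h5 i).1
    isOpen_interior (h5 i).2 (f i) (hW i)
  exact ⟨a, ⟨P, Q, h1, h2, h3, h4, fun i x hx => interior_subset
    (ha' i x fun h0 => hx (interior_subset h0))⟩, ha⟩

end B

end Pool.Agent.H72.In
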