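import Pool.Agent.H72.In.I2

/-!
# Iterated commutators
-/

set_option autoImplicit false

open Filter Topology Set Metric

namespace Pool.Agent.H72.In

/-- Iterated commutators `[a, [a, …, [a, b]]]`. -/
def cs {G : Type} [Group G] (a b : G) : ℕ → G
  | 0 => b
  | k + 1 => a * cs a b k * a⁻¹ * (cs a b k)⁻¹

theorem map_cs {G H : Type} [Group G] [Group H] (f : G →* H) (a b : G) (k : ℕ) :
    f (cs a b k) = cs (f a) (f b) k := by
  induction k with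
  | zero => rfl
  | succ k ih => simp only [cs, map_mul, map_inv, ih]

theorem cs_mem {G : Type} [Group G] (H : Subgroup G) {a b : G} (ha : a ∈ H) (hb : b ∈ H) (k : ℕ) :
    cs a b k ∈ H := by
  induction k with
  | zero => exact hb
  | succ k ih => exact H.mul_mem (H.mul_mem (H.mul_mem ha ih) (H.inv_mem ha)) (H.inv_mem ih)

/-- The iterated commutators of affine maps. -/
theorem cs_perm (k : ℕ) (x : ℚ) : cs (G := Equiv.Perm ℚ) (Equiv.mulLeft₀ 3 (by norm_num))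
    (Equiv.addRight 1) k x = x + 2 ^ k := by
  induction k generalizing x with
  | zero => simp [cs]
  | succ k ih =>
    have h1 : ∀ y : ℚ, (cs (G := Equiv.Perm ℚ) (Equiv.mulLeft₀ 3 (by norm_num))
        (Equiv.addRight 1) k)⁻¹ y = y - 2 ^ k := by
      intro y
      rw [Equiv.Perm.inv_eq_iff_eq, ih]
      ring
    have h2 : ∀ y : ℚ, (Equiv.mulLeft₀ (3 : ℚ) (by norm_num) : Equiv.Perm ℚ)⁻¹ y = y / 3 := by
      intro y
      rw [Equiv.Perm.inv_eq_iff_eq]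
      change y = 3 * (y / 3)
      ring
    change (Equiv.mulLeft₀ (3 : ℚ) (by norm_num) : Equiv.Perm ℚ) (cs (G := Equiv.Perm ℚ)
      (Equiv.mulLeft₀ 3 (by norm_num)) (Equiv.addRight 1) k
        ((Equiv.mulLeft₀ (3 : ℚ) (by norm_num) : Equiv.Perm ℚ)⁻¹ ((cs (G := Equiv.Perm ℚ)
          (Equiv.mulLeft₀ 3 (by norm_num)) (Equiv.addRight 1) k)⁻¹ x))) = _
    rw [h1, h2, ih]
    change 3 * ((x - 2 ^ k) / 3 + 2 ^ k) = _
    ring

/-- They are distinct in a free group. -/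
theorem cs_inj {G : Type} [Group G] {m : ℕ} {a : Fin m → G}
    (h : Function.Injective (FreeGroup.lift a)) {i j : Fin m} (hij : i ≠ j) :
    Function.Injective (cs (a i) (a j)) := by
  classical
  have h1 : Function.Injective (cs (FreeGroup.of i) (FreeGroup.of j : FreeGroup (Fin m))) := by
    intro k l hkl
    set ψ : FreeGroup (Fin m) →* Equiv.Perm ℚ := FreeGroup.lift fun t =>
      if t = i then Equiv.mulLeft₀ 3 (by norm_num) else Equiv.addRight 1 with hψ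
    have h2 := congrArg ψ hkl
    have hi : ψ (FreeGroup.of i) = Equiv.mulLeft₀ 3 (by norm_num) := by
      rw [hψ, FreeGroup.lift_apply_of, if_pos rfl]
    have hj : ψ (FreeGroup.of j) = Equiv.addRight 1 := by
      rw [hψ, FreeGroup.lift_apply_of, if_neg (Ne.symm hij)]
    rw [map_cs, map_cs, hi, hj] at h2
    have h3 := congrArg (fun e : Equiv.Perm ℚ => e 0) h2
    rw [cs_perm, cs_perm, zero_add, zero_add] at h3
    exact Nat.pow_right_injective le_rfl (by exact_mod_cast h3)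
  intro k l hkl
  refine h1 (h ?_)
  rw [map_cs, map_cs]
  simpa using hkl

section Norm

variable {R : Type} [NormedRing R] (h1R : ‖(1 : R)‖ ≤ 1)

include h1R

theorem norm_inv_le {b : Rˣ} (hb : ‖(b : R) - 1‖ ≤ 1 / 16) : ‖((b⁻¹ : Rˣ) : R)‖ ≤ 2 := by
  have e : ((b⁻¹ : Rˣ) : R) = 1 - ((b : R) - 1) * ((b⁻¹ : Rˣ) : R) := by
    rw [sub_mul, one_mul, Units.mul_inv]
    abel
  have h2 : ‖((b⁻¹ : Rˣ) : R)‖ ≤ 1 + 1 / 16 * ‖((b⁻¹ : Rˣ) : R)‖ := by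
    calc ‖((b⁻¹ : Rˣ) : R)‖ = ‖1 - ((b : R) - 1) * ((b⁻¹ : Rˣ) : R)‖ := by rw [← e]
      _ ≤ ‖(1 : R)‖ + ‖((b : R) - 1) * ((b⁻¹ : Rˣ) : R)‖ := norm_sub_le _ _
      _ ≤ 1 + ‖(b : R) - 1‖ * ‖((b⁻¹ : Rˣ) : R)‖ := add_le_add h1R (norm_mul_le _ _)
      _ ≤ 1 + 1 / 16 * ‖((b⁻¹ : Rˣ) : R)‖ := by gcongr
  linarith [norm_nonneg ((b⁻¹ : Rˣ) : R)]

theorem norm_comm_le {a b : Rˣ} (ha : ‖(a : R) - 1‖ ≤ 1 / 16) (hb : ‖(b : R) - 1‖ ≤ 1 / 16) :
    ‖((a * b * a⁻¹ * b⁻¹ : Rˣ) : R) - 1‖ ≤ 1 / 2 * ‖(b : R) - 1‖ := by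
  have ha' := norm_inv_le h1R ha
  have hb' := norm_inv_le h1R hb
  have e : ((a * b * a⁻¹ * b⁻¹ : Rˣ) : R) - 1 = (((a : R) - 1) * ((b : R) - 1) -
      ((b : R) - 1) * ((a : R) - 1)) * ((a⁻¹ : Rˣ) : R) * ((b⁻¹ : Rˣ) : R) := by
    have e1 : (((a : R) - 1) * ((b : R) - 1) - ((b : R) - 1) * ((a : R) - 1)) =
        (a : R) * b - b * a := by noncomm_ring
    rw [e1, sub_mul, sub_mul, mul_assoc (b : R) a, Units.mul_inv, mul_one, Units.mul_inv]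
    push_cast
    rfl
  rw [e]
  calc _ ≤ ‖(((a : R) - 1) * ((b : R) - 1) - ((b : R) - 1) * ((a : R) - 1)) * ((a⁻¹ : Rˣ) : R)‖ *
        ‖((b⁻¹ : Rˣ) : R)‖ := norm_mul_le _ _
    _ ≤ (‖((a : R) - 1) * ((b : R) - 1) - ((b : R) - 1) * ((a : R) - 1)‖ * ‖((a⁻¹ : Rˣ) : R)‖) *
        ‖((b⁻¹ : Rˣ) : R)‖ := by gcongr; exact norm_mul_le _ _
    _ ≤ ((‖(a : R) - 1‖ * ‖(b : R) - 1‖ + ‖(b : R) - 1‖ * ‖(a : R) - 1‖) * 2) * 2 := by
        gcongr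
        exact (norm_sub_le _ _).trans (add_le_add (norm_mul_le _ _) (norm_mul_le _ _))
    _ ≤ ((1 / 16 * ‖(b : R) - 1‖ + ‖(b : R) - 1‖ * (1 / 16)) * 2) * 2 := by gcongr
    _ = 1 / 2 * ‖(b : R) - 1‖ := by ring

theorem norm_cs_le {a b : Rˣ} (ha : ‖(a : R) - 1‖ ≤ 1 / 16) (hb : ‖(b : R) - 1‖ ≤ 1 / 16)
    (k : ℕ) : ‖((cs a b k : Rˣ) : R) - 1‖ ≤ 1 / 16 * (1 / 2) ^ k := by
  induction k with
  | zero => simpa [cs] using hb
  | succ k ih =>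
    have h2 : (1 / 16 * (1 / 2) ^ k : ℝ) ≤ 1 / 16 := by
      have : (1 / 2 : ℝ) ^ k ≤ 1 := pow_le_one₀ (by norm_num) (by norm_num)
      linarith
    have h3 := norm_comm_le h1R ha (ih.trans h2)
    calc ‖((cs a b (k + 1) : Rˣ) : R) - 1‖ ≤ 1 / 2 * ‖((cs a b k : Rˣ) : R) - 1‖ := h3
      _ ≤ 1 / 2 * (1 / 16 * (1 / 2) ^ k) := by gcongr
      _ = 1 / 16 * (1 / 2) ^ (k + 1) := by ring

theorem tendsto_cs {a b : Rˣ} (ha : ‖(a : R) - 1‖ ≤ 1 / 16) (hb : ‖(b : R) - 1‖ ≤ 1 / 16) :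
    Tendsto (fun k => ((cs a b k : Rˣ) : R)) atTop (𝓝 1) := by
  rw [tendsto_iff_norm_sub_tendsto_zero]
  refine squeeze_zero (fun k => norm_nonneg _) (norm_cs_le h1R ha hb) ?_
  have h2 := (tendsto_pow_atTop_nhds_zero_of_lt_one (r := (1 / 2 : ℝ)) (by norm_num)
    (by norm_num)).const_mul (1 / 16)
  simpa using h2

end Norm

end Pool.Agent.H72.In
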