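import Pool.Agent.H72.In.I3

/-!
# Homomorphisms to the units of a normed ring that are not proper
-/

set_option autoImplicit false

open Filter Topology Set Metric Pool.Agent.TH289.C

namespace Pool.Agent.H72.In

variable {R : Type} [NormedRing R] {G : Type} [Group G]

/-- A bounded infinite set contains a sequence of distinct elements which converges. -/
theorem lim_of_bdd [ProperSpace R] (ρ : G →* Rˣ) {M : ℝ}
    (hinf : {g : G | ‖(ρ g : R)‖ ≤ M ∧ ‖(ρ g⁻¹ : R)‖ ≤ M}.Infinite) :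
    ∃ (g : ℕ → G) (u : Rˣ), Function.Injective g ∧ Tendsto (fun k => ρ (g k)) atTop (𝓝 u) := by
  set e := hinf.natEmbedding
  obtain ⟨⟨A, B⟩, -, φ, hφ, hlim⟩ :=
    ((isCompact_closedBall (0 : R) M).prod (isCompact_closedBall (0 : R) M)).tendsto_subseq
    (x := fun n => (((ρ (e n : G) : Rˣ) : R), ((ρ (e n : G)⁻¹ : Rˣ) : R))) (fun n => by
      obtain ⟨h1, h2⟩ := (e n).2
      exact ⟨mem_closedBall_zero_iff.2 h1, mem_closedBall_zero_iff.2 h2⟩)
  have hA : Tendsto (fun n => ((ρ (e (φ n) : G) : Rˣ) : R)) atTop (𝓝 A) :=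
    (continuous_fst.tendsto _).comp hlim
  have hB : Tendsto (fun n => (((ρ (e (φ n) : G))⁻¹ : Rˣ) : R)) atTop (𝓝 B) := by
    have h1 := (continuous_snd.tendsto _).comp hlim
    refine h1.congr fun n => ?_
    simp only [Function.comp, map_inv]
  have hAB : A * B = 1 := tendsto_nhds_unique (hA.mul hB)
    (tendsto_const_nhds.congr fun n => (Units.mul_inv _).symm)
  have hBA : B * A = 1 := tendsto_nhds_unique (hB.mul hA)
    (tendsto_const_nhds.congr fun n => (Units.inv_mul _).symm)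
  refine ⟨fun n => e (φ n), ⟨A, B, hAB, hBA⟩, fun m n hmn => hφ.injective
    (e.injective (Subtype.ext hmn)), ?_⟩
  exact (Units.isInducing_embedProduct.tendsto_nhds_iff).2
    (hA.prodMk_nhds ((MulOpposite.continuous_op.tendsto B).comp hB))

/-- Schottky subgroups near any elements. -/
theorem sch_near [ProperSpace R] {X : Type} [MetricSpace X] {α : G →* (X ≃ₜ X)}
    [CompactSpace X] [Infinite X] (hα : IsConvergenceAction α)
    (hmin : ∀ x, Dense (range fun g => α g x)) (ρ : G →* Rˣ) {M : ℝ}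
    (hinf : {g : G | ‖(ρ g : R)‖ ≤ M ∧ ‖(ρ g⁻¹ : R)‖ ≤ M}.Infinite) {m : ℕ} (f : Fin m → G)
    {ε : ℝ} (hε : 0 < ε) :
    ∃ a : Fin m → G, Sch α a ∧ ∀ i, ‖(ρ (a i) : R) - ρ (f i)‖ ≤ ε := by
  obtain ⟨g, u, hg, hu⟩ := lim_of_bdd ρ hinf
  obtain ⟨a, ha, h⟩ := exists_sch hα hmin ρ hg hu f
    (W := fun i => {w | ‖(w : R) - ρ (f i)‖ < ε}) (fun i => by
      have hc : Continuous fun w : Rˣ => ‖(w : R) - ρ (f i)‖ :=
        (Units.continuous_val.sub continuous_const).norm
      refine (isOpen_lt hc continuous_const).mem_nhds ?_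
      change ‖(ρ (f i) : R) - ρ (f i)‖ < ε
      rw [sub_self, norm_zero]
      exact hε)
  exact ⟨a, ha, fun i => (h i).le⟩

/-- A free group with two generators near the identity is not mapped properly. -/
theorem not_fin_of_near (h1R : ‖(1 : R)‖ ≤ 1) (ρ : G →* Rˣ) {m : ℕ} {a : Fin m → G}
    (h : Function.Injective (FreeGroup.lift a)) {i j : Fin m} (hij : i ≠ j)
    (hi : ‖(ρ (a i) : R) - 1‖ ≤ 1 / 16) (hj : ‖(ρ (a j) : R) - 1‖ ≤ 1 / 16) {δ : ℝ} (hδ : 0 < δ) :
    {g : G | g ∈ Subgroup.closure (range a) ∧ ‖(ρ g : R) - 1‖ ≤ δ}.Infinite := by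
  have h2 : Tendsto (fun k : ℕ => (1 / 16 * (1 / 2) ^ k : ℝ)) atTop (𝓝 0) := by
    have := (tendsto_pow_atTop_nhds_zero_of_lt_one (r := (1 / 2 : ℝ)) (by norm_num)
      (by norm_num)).const_mul (1 / 16)
    simpa using this
  obtain ⟨N, hN⟩ := eventually_atTop.1 (h2.eventually (eventually_le_nhds hδ))
  refine Set.infinite_of_injective_forall_mem (f := fun k : ℕ => cs (a i) (a j) (N + k))
    (fun k l hkl => ?_) (fun k => ⟨cs_mem _ (Subgroup.subset_closure (mem_range_self i))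
      (Subgroup.subset_closure (mem_range_self j)) _, ?_⟩)
  · have := cs_inj h hij hkl
    omega
  · rw [map_cs]
    exact (norm_cs_le h1R hi hj _).trans (hN _ (by omega))

end Pool.Agent.H72.In
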