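import Pool.Agent.H72.In.I4
import Pool.Agent.H72.Rel.R17

/-!
# Actions on hyperbolic space that are not proper
-/

set_option autoImplicit false

open Filter Topology Set Metric Pool.Agent.TH631.RC
open Pool.Agent.TH289.C (IsConvergenceAction)
open Pool.Agent.H72.Rel (toHom toHom_apply)

namespace Pool.Agent.H72.In

variable {E : Type} [NormedAddCommGroup E] [InnerProductSpace ℝ E]
variable {G : Type} [Group G]

/-- The action as a homomorphism to the invertible operators. -/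
noncomputable def un [FiniteDimensional ℝ E] (ρ : HypAction G E) :
    G →* ((ℝ × E) →L[ℝ] (ℝ × E))ˣ where
  toFun g := ⟨toHom ρ g, toHom ρ g⁻¹, ContinuousLinearMap.ext fun v => by
    change ρ.map g (ρ.map g⁻¹ v) = v
    rw [← ρ.map_mul, mul_inv_cancel, ρ.map_one], ContinuousLinearMap.ext fun v => by
    change ρ.map g⁻¹ (ρ.map g v) = v
    rw [← ρ.map_mul, inv_mul_cancel, ρ.map_one]⟩
  map_one' := Units.ext (ContinuousLinearMap.ext fun v => ρ.map_one v)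
  map_mul' g h := Units.ext (ContinuousLinearMap.ext fun v => ρ.map_mul g h v)

variable {ρ : HypAction G E}

theorem un_apply [FiniteDimensional ℝ E] (g : G) (v : ℝ × E) :
    ((un ρ g : ((ℝ × E) →L[ℝ] (ℝ × E))ˣ) : (ℝ × E) →L[ℝ] (ℝ × E)) v = ρ.map g v := rfl

theorem norm_map_le (g : G) (v : ℝ × E) : ‖ρ.map g v‖ ≤ (2 * T ρ g + 1) * ‖v‖ := by
  have hT := T_pos (ρ := ρ) g
  have hv1 : |v.1| ≤ ‖v‖ := by rw [← Real.norm_eq_abs]; exact norm_fst_le v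
  have hv2 : ‖v.2‖ ≤ ‖v‖ := norm_snd_le v
  have hU : ‖U ρ g⁻¹‖ ≤ T ρ g := by
    have h1 := T_sq (ρ := ρ) g⁻¹
    rw [T_inv] at h1
    nlinarith [norm_nonneg (U ρ g⁻¹)]
  have h1 : |(ρ.map g v).1| ≤ 2 * T ρ g * ‖v‖ := by
    rw [fst_map]
    have h2 := abs_real_inner_le_norm v.2 (U ρ g⁻¹)
    have h3 : |T ρ g * v.1| ≤ T ρ g * ‖v‖ := by
      rw [abs_mul, abs_of_pos hT]
      gcongr
    have h4 : ‖v.2‖ * ‖U ρ g⁻¹‖ ≤ ‖v‖ * T ρ g := by gcongr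
    calc _ ≤ |T ρ g * v.1| + |inner ℝ v.2 (U ρ g⁻¹)| := abs_sub _ _
      _ ≤ 2 * T ρ g * ‖v‖ := by linarith
  have h2 : ‖(ρ.map g v).2‖ ≤ (2 * T ρ g + 1) * ‖v‖ := by
    have h3 := ρ.lor_map g v v
    simp only [lor, real_inner_self_eq_norm_sq] at h3
    have h4 : (ρ.map g v).1 * (ρ.map g v).1 ≤ (2 * T ρ g * ‖v‖) ^ 2 := by
      rw [← sq, ← sq_abs]
      gcongr
    have h5 : ‖v.2‖ ^ 2 ≤ ‖v‖ ^ 2 := by gcongr
    have h6 : ‖(ρ.map g v).2‖ ^ 2 ≤ ((2 * T ρ g + 1) * ‖v‖) ^ 2 := by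
      have h7 : 0 ≤ T ρ g * ‖v‖ ^ 2 := by positivity
      nlinarith [mul_self_nonneg v.1]
    exact le_of_sq_le_sq h6 (by positivity)
  rw [Prod.norm_def]
  refine max_le ?_ h2
  rw [Real.norm_eq_abs]
  nlinarith [norm_nonneg v]

theorem norm_un_le [FiniteDimensional ℝ E] (g : G) :
    ‖((un ρ g : ((ℝ × E) →L[ℝ] (ℝ × E))ˣ) : (ℝ × E) →L[ℝ] (ℝ × E))‖ ≤ 2 * T ρ g + 1 :=
  ContinuousLinearMap.opNorm_le_bound _ (by linarith [T_pos (ρ := ρ) g]) (norm_map_le g)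

section Sch

variable {X : Type} [MetricSpace X] {α : G →* (X ≃ₜ X)}

/-- Schottky subgroups near any elements. -/
theorem exists_sch_near [FiniteDimensional ℝ E] [CompactSpace X] [Infinite X]
    (hα : IsConvergenceAction α) (hmin : ∀ x, Dense (range fun g => α g x))
    (hfin : ¬ ∀ R : ℝ, {g : G | T ρ g ≤ R}.Finite) {m : ℕ} (f : Fin m → G) {ε : ℝ} (hε : 0 < ε) :
    ∃ a : Fin m → G, Sch α a ∧ ∀ i v, ‖ρ.map (a i) v - ρ.map (f i) v‖ ≤ ε * ‖v‖ := by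
  push Not at hfin
  obtain ⟨R, hR⟩ := hfin
  have hinf : {g : G | ‖((un ρ g : ((ℝ × E) →L[ℝ] (ℝ × E))ˣ) : (ℝ × E) →L[ℝ] (ℝ × E))‖ ≤
      2 * R + 1 ∧ ‖((un ρ g⁻¹ : ((ℝ × E) →L[ℝ] (ℝ × E))ˣ) : (ℝ × E) →L[ℝ] (ℝ × E))‖ ≤
      2 * R + 1}.Infinite := by
    refine Set.Infinite.mono ?_ hR
    intro g hg
    have hg' : T ρ g ≤ R := hg
    refine ⟨(norm_un_le g).trans (by linarith), (norm_un_le g⁻¹).trans ?_⟩
    rw [T_inv]
    linarith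
  have : ProperSpace ((ℝ × E) →L[ℝ] (ℝ × E)) :=
    FiniteDimensional.proper ℝ ((ℝ × E) →L[ℝ] (ℝ × E))
  obtain ⟨a, ha, h⟩ := sch_near (R := (ℝ × E) →L[ℝ] (ℝ × E)) hα hmin (un ρ) hinf f hε
  refine ⟨a, ha, fun i v => ?_⟩
  have h1 := (((un ρ (a i) : ((ℝ × E) →L[ℝ] (ℝ × E))ˣ) : (ℝ × E) →L[ℝ] (ℝ × E)) -
    ((un ρ (f i) : ((ℝ × E) →L[ℝ] (ℝ × E))ˣ) : (ℝ × E) →L[ℝ] (ℝ × E))).le_opNorm v
  exact h1.trans (mul_le_mul_of_nonneg_right (h i) (norm_nonneg v))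

/-- A free group with two generators near the identity does not act properly. -/
theorem infinite_of_near [FiniteDimensional ℝ E] {m : ℕ} {a : Fin m → G}
    (h : Function.Injective (FreeGroup.lift a)) {i j : Fin m} (hij : i ≠ j)
    (hi : ∀ v, ‖ρ.map (a i) v - v‖ ≤ 1 / 16 * ‖v‖) (hj : ∀ v, ‖ρ.map (a j) v - v‖ ≤ 1 / 16 * ‖v‖) :
    {g : G | g ∈ Subgroup.closure (range a) ∧ T ρ g ≤ 2}.Infinite := by
  have h1 : ‖(1 : (ℝ × E) →L[ℝ] (ℝ × E))‖ ≤ 1 := ContinuousLinearMap.norm_id_le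
  have hn : ∀ g : G, (∀ v, ‖ρ.map g v - v‖ ≤ 1 / 16 * ‖v‖) →
      ‖((un ρ g : ((ℝ × E) →L[ℝ] (ℝ × E))ˣ) : (ℝ × E) →L[ℝ] (ℝ × E)) - 1‖ ≤ 1 / 16 := by
    intro g hg
    exact ContinuousLinearMap.opNorm_le_bound _ (by norm_num) hg
  have h2 := not_fin_of_near (R := (ℝ × E) →L[ℝ] (ℝ × E)) h1 (un ρ) h hij (hn _ hi) (hn _ hj)
    one_pos
  refine h2.mono ?_
  rintro g ⟨hg, hg'⟩
  refine ⟨hg, ?_⟩
  have h3 := (((un ρ g : ((ℝ × E) →L[ℝ] (ℝ × E))ˣ) : (ℝ × E) →L[ℝ] (ℝ × E)) - 1).le_opNorm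
    ((1 : ℝ), (0 : E))
  have h4 : ‖((1 : ℝ), (0 : E))‖ = 1 := by simp
  rw [h4, mul_one] at h3
  have h5 : ‖ρ.map g ((1 : ℝ), (0 : E)) - (1, 0)‖ ≤ 1 := h3.trans hg'
  have h6 := (norm_fst_le _).trans h5
  have h7 : (ρ.map g ((1 : ℝ), (0 : E)) - (1, 0)).1 = T ρ g - 1 := rfl
  rw [h7, Real.norm_eq_abs] at h6
  linarith [le_abs_self (T ρ g - 1)]

end Sch

end Pool.Agent.H72.In
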