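import Pool.Agent.H72.In.I5
import Pool.Graph.R_pool_sql_team_seeded_ab47071d.TH631.RC.Fin

/-!
# Criteria for lattices
-/

set_option autoImplicit false

open Filter Topology Set Metric Pool.Agent.TH631.RC
open Pool.Agent.TH289.C (IsConvergenceAction Sph)
open Pool.Agent.H72.Rel

namespace Pool.Agent.H72.In

variable {E : Type} [NormedAddCommGroup E] [InnerProductSpace ℝ E]
variable {G : Type} [Group G]

/-- The compact sets given by the time coordinate. -/
theorem compact_hyp [FiniteDimensional ℝ E] (R : ℝ) :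
    IsCompact {v : ℝ × E | v ∈ HypSpace E ∧ v.1 ≤ R} := by
  have : ProperSpace E := FiniteDimensional.proper ℝ E
  have hsub : {v : ℝ × E | v ∈ HypSpace E ∧ v.1 ≤ R} =
      {v : ℝ × E | v.1 * v.1 - inner ℝ v.2 v.2 = 1 ∧ 1 ≤ v.1 ∧ v.1 ≤ R} := by
    ext v
    constructor
    · rintro ⟨h1, h2⟩
      exact ⟨h1.1, hyp_one_le h1, h2⟩
    · rintro ⟨h1, h2, h3⟩
      exact ⟨⟨h1, by linarith⟩, h3⟩
  refine Metric.isCompact_of_isClosed_isBounded ?_ ?_
  · rw [hsub]
    refine IsClosed.inter (isClosed_eq (by fun_prop) continuous_const)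
      (IsClosed.inter (isClosed_le continuous_const continuous_fst)
        (isClosed_le continuous_fst continuous_const))
  · rw [isBounded_iff_forall_norm_le]
    refine ⟨R, ?_⟩
    rintro v ⟨h1, h2⟩
    have h3 := hyp_lt h1
    rw [Prod.norm_def, max_le_iff, Real.norm_eq_abs, abs_of_pos h1.2]
    exact ⟨h2, by linarith⟩

variable {ρ : HypAction G E}

theorem o_mem : ((1 : ℝ), (0 : E)) ∈ HypSpace E := by
  refine ⟨?_, one_pos⟩
  simp [lor]

/-- A set of elements which acts properly. -/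
theorem fin_of_acts [FiniteDimensional ℝ E] {H : Set G}
    (h : ∀ K ⊆ HypSpace E, IsCompact K → {g : G | g ∈ H ∧ ∃ v ∈ K, ρ.map g v ∈ K}.Finite) (R : ℝ) :
    {g : G | g ∈ H ∧ T ρ g ≤ R}.Finite := by
  refine (h _ (fun v hv => hv.1) (compact_hyp (E := E) (max R 1))).subset ?_
  rintro g ⟨hg, hg'⟩
  have hg'' : T ρ g ≤ R := hg'
  refine ⟨hg, (1, 0), ⟨o_mem, le_max_right _ _⟩, ⟨map_mem (ρ := ρ) o_mem g, ?_⟩⟩
  exact hg''.trans (le_max_left _ _)

theorem fin_of_proper [FiniteDimensional ℝ E] (h : ActsProperly ρ) (R : ℝ) :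
    {g : G | T ρ g ≤ R}.Finite := by
  have h1 := fin_of_acts (ρ := ρ) (H := univ) (fun K hK hKc => by
    refine (h K hK hKc).subset ?_
    rintro g ⟨-, hg⟩
    exact hg) R
  exact h1.subset fun g hg => ⟨mem_univ g, hg⟩

section Lox

variable {X : Type} [MetricSpace X] {α : G →* (X ≃ₜ X)}

theorem pow_fix {g : G} (h : T ρ g = 1) (k : ℕ) : T ρ (g ^ k) = 1 := by
  have h1 : U ρ g = 0 := by
    have := T_sq (ρ := ρ) g
    rw [h] at this
    have h2 : ‖U ρ g‖ ^ 2 = 0 := by linarith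
    exact norm_eq_zero.1 (pow_eq_zero_iff two_ne_zero |>.1 h2)
  have h2 : ρ.map g (1, 0) = (1, 0) := by rw [map_o, h, h1]
  have h3 : ∀ k : ℕ, ρ.map (g ^ k) (1, 0) = (1, 0) := by
    intro k
    induction k with
    | zero => rw [pow_zero, ρ.map_one]
    | succ k ih => rw [pow_succ, ρ.map_mul, h2, ih]
  change (ρ.map (g ^ k) (1, 0)).1 = 1
  rw [h3]

theorem T_one_le (g : G) : 1 ≤ T ρ g := by
  have h1 := T_sq (ρ := ρ) g
  have h2 := T_pos (ρ := ρ) g
  nlinarith [sq_nonneg ‖U ρ g‖]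

/-- The displacement of the base point by loxodromic elements. -/
theorem displ_of_fin (hfin : ∀ R : ℝ, {g : G | T ρ g ≤ R}.Finite) :
    ∃ ε : ℝ, 0 < ε ∧ ∀ g, Sch α (fun _ : Fin 1 => g) → 1 + ε ≤ T ρ g := by
  have h1 : ∀ g, Sch α (fun _ : Fin 1 => g) → 1 < T ρ g := by
    intro g hg
    refine lt_of_le_of_ne (T_one_le g) fun h0 => ?_
    exact Set.infinite_of_injective_forall_mem (hg.pow_inj 0)
      (fun k => (pow_fix h0.symm k).le) (hfin 1)
  have h2 : {g : G | Sch α (fun _ : Fin 1 => g) ∧ T ρ g ≤ 2}.Finite :=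
    (hfin 2).subset fun g hg => hg.2
  rcases {g : G | Sch α (fun _ : Fin 1 => g) ∧ T ρ g ≤ 2}.eq_empty_or_nonempty with h3 | h3
  · refine ⟨1, one_pos, fun g hg => ?_⟩
    by_contra hcon
    push Not at hcon
    have : g ∈ {g : G | Sch α (fun _ : Fin 1 => g) ∧ T ρ g ≤ 2} := ⟨hg, by linarith⟩
    rw [h3] at this
    exact this
  · obtain ⟨b, hb, hmin⟩ := Set.exists_min_image _ (T ρ) h2 h3
    have hb1 := h1 b hb.1
    refine ⟨min 1 (T ρ b - 1), lt_min one_pos (by linarith), fun g hg => ?_⟩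
    by_cases h4 : T ρ g ≤ 2
    · have := hmin g ⟨hg, h4⟩
      linarith [min_le_right 1 (T ρ b - 1)]
    · push Not at h4
      linarith [min_le_left 1 (T ρ b - 1)]

variable [FiniteDimensional ℝ E] [CompactSpace X] [Infinite X]
    (hα : IsConvergenceAction α) (hmin : ∀ x, Dense (range fun g => α g x))

include hα hmin

/-- The action is proper if the displacement of the base point by loxodromic elements is bounded
below. -/
theorem fin_of_displ {ε : ℝ} (hε : 0 < ε)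
    (h : ∀ g, Sch α (fun _ : Fin 1 => g) → 1 + ε ≤ T ρ g) (R : ℝ) : {g : G | T ρ g ≤ R}.Finite := by
  by_contra hcon
  have hfin : ¬ ∀ R : ℝ, {g : G | T ρ g ≤ R}.Finite := fun h0 => hcon (h0 R)
  obtain ⟨a, ha, h1⟩ := exists_sch_near hα hmin hfin (fun _ : Fin 1 => (1 : G)) (half_pos hε)
  have h2 : (fun _ : Fin 1 => a 0) = a := by
    ext i
    rw [Subsingleton.elim i 0]
  have h3 := h (a 0) (by rw [h2]; exact ha)
  have h4 := h1 0 ((1 : ℝ), (0 : E))
  rw [ρ.map_one] at h4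
  have h5 : ‖((1 : ℝ), (0 : E))‖ = 1 := by simp
  rw [h5, mul_one] at h4
  have h6 := (norm_fst_le _).trans h4
  have h7 : (ρ.map (a 0) ((1 : ℝ), (0 : E)) - (1, 0)).1 = T ρ (a 0) - 1 := rfl
  rw [h7, Real.norm_eq_abs] at h6
  linarith [le_abs_self (T ρ (a 0) - 1)]

/-- The action is proper if it is proper on the Schottky subgroups with two generators. -/
theorem fin_of_sch (h : ∀ a : Fin 2 → G, Sch α a →
    {g : G | g ∈ Subgroup.closure (range a) ∧ T ρ g ≤ 2}.Finite) (R : ℝ) :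
    {g : G | T ρ g ≤ R}.Finite := by
  by_contra hcon
  have hfin : ¬ ∀ R : ℝ, {g : G | T ρ g ≤ R}.Finite := fun h0 => hcon (h0 R)
  obtain ⟨a, ha, h1⟩ := exists_sch_near hα hmin hfin (fun _ : Fin 2 => (1 : G))
    (ε := 1 / 16) (by norm_num)
  have h2 : ∀ i v, ‖ρ.map (a i) v - v‖ ≤ 1 / 16 * ‖v‖ := by
    intro i v
    have := h1 i v
    rwa [ρ.map_one] at this
  exact infinite_of_near (ha.free le_rfl) (i := 0) (j := 1) (by decide) (h2 0) (h2 1) (h a ha)

end Lox

end Pool.Agent.H72.In
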