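import Pool.Agent.H72.In.I4

/-!
# Characterizations of the homomorphisms that are not proper
-/

set_option autoImplicit false

open Filter Topology Set Metric Pool.Agent.TH289.C Pool.Agent.H72.Dj

namespace Pool.Agent.H72.In

/-- The images of some sequence of distinct elements converge. -/
def NP {G : Type} [Group G] {L : Type} [Group L] [TopologicalSpace L] (ρ : G →* L) : Prop :=
  ∃ (g : ℕ → G) (u : L), Function.Injective g ∧ Tendsto (fun k => ρ (g k)) atTop (𝓝 u)

section Seq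

variable {G : Type} [Group G] {L : Type} [Group L] [TopologicalSpace L] {ρ : G →* L}

/-- A sequence with infinitely many values has a subsequence of distinct elements. -/
theorem exists_inj {A : Type} (g : ℕ → A) (h : (range g).Infinite) :
    ∃ φ : ℕ → ℕ, StrictMono φ ∧ Function.Injective (g ∘ φ) := by
  classical
  set S : Set ℕ := {k | ∀ j < k, g j ≠ g k} with hS
  have h1 : range g ⊆ g '' S := by
    rintro _ ⟨k, rfl⟩
    have hex : ∃ j, g j = g k := ⟨k, rfl⟩
    refine ⟨Nat.find hex, fun j hj h0 => ?_, Nat.find_spec hex⟩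
    exact Nat.find_min hex hj (h0.trans (Nat.find_spec hex))
  have h2 : S.Infinite := fun hfin => h ((hfin.image g).subset h1)
  have : Infinite S := h2.to_subtype
  refine ⟨fun n => Nat.orderEmbeddingOfSet S n, fun m n hmn => (Nat.orderEmbeddingOfSet S).strictMono
    hmn, fun m n hmn => ?_⟩
  have h3 : ∀ m n : ℕ, m < n → g (Nat.orderEmbeddingOfSet S m) ≠ g (Nat.orderEmbeddingOfSet S n) := by
    intro m n hmn
    have h4 : (Nat.orderEmbeddingOfSet S n) ∈ S := by
      have h5 := Nat.orderEmbeddingOfSet_range S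
      exact h5.subset (mem_range_self n)
    exact h4 _ ((Nat.orderEmbeddingOfSet S).strictMono hmn)
  rcases lt_trichotomy m n with h4 | h4 | h4
  · exact absurd hmn (h3 m n h4)
  · exact h4
  · exact absurd hmn.symm (h3 n m h4)

/-- A convergent sequence of images: not proper, or some value is taken infinitely often. -/
theorem np_or (g : ℕ → G) {u : L} (h : Tendsto (fun k => ρ (g k)) atTop (𝓝 u)) :
    NP ρ ∨ ∃ s, ∃ᶠ k in atTop, g k = s := by
  by_cases hr : (range g).Infinite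
  · obtain ⟨φ, hφ, hinj⟩ := exists_inj g hr
    exact Or.inl ⟨g ∘ φ, u, hinj, h.comp hφ.tendsto_atTop⟩
  · right
    by_contra hcon
    push Not at hcon
    have h1 : ∀ s ∈ range g, ∀ᶠ k in atTop, g k ≠ s := fun s _ => hcon s
    have h2 := (Set.not_infinite.1 hr).eventually_all.2 h1
    obtain ⟨k, hk⟩ := h2.exists
    exact hk (g k) ⟨k, rfl⟩ rfl

theorem np_of_ker (h : {g : G | ρ g = 1}.Infinite) : NP ρ := by
  set e := h.natEmbedding
  refine ⟨fun n => e n, 1, fun m n hmn => e.injective (Subtype.ext hmn), ?_⟩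
  refine tendsto_const_nhds.congr fun n => ?_
  exact ((e n).2 : ρ (e n : G) = 1).symm

theorem eq_of_freq [T2Space L] {g : ℕ → G} {u : L} {s : G}
    (h : Tendsto (fun k => ρ (g k)) atTop (𝓝 u)) (hs : ∃ᶠ k in atTop, g k = s) : ρ s = u := by
  obtain ⟨φ, hφ, h1⟩ := extraction_of_frequently_atTop hs
  refine tendsto_nhds_unique ?_ (h.comp hφ.tendsto_atTop)
  refine tendsto_const_nhds.congr fun n => ?_
  simp only [Function.comp, h1]

end Seq

section A

variable {G : Type} [Group G] {X : Type} [MetricSpace X] {α : G →* (X ≃ₜ X)}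
variable {L : Type} [Group L] [TopologicalSpace L] {ρ : G →* L}

/-- Arbitrary dynamics near any element. -/
def Ind (α : G →* (X ≃ₜ X)) (ρ : G →* L) : Prop :=
  ∀ U U' : Set X, IsOpen U → U.Nonempty → IsOpen U' → U'.Nonempty → ∀ f : G, ∀ W ∈ 𝓝 (ρ f),
    ∃ g, ρ g ∈ W ∧ ∀ x ∉ U', α g x ∈ U

theorem ind_of_np [IsTopologicalGroup L] [CompactSpace X] [Infinite X]
    (hα : IsConvergenceAction α) (hmin : ∀ x, Dense (range fun g => α g x)) (h : NP ρ) :
    Ind α ρ := by
  obtain ⟨g, u, hg, hu⟩ := h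
  intro U U' hU hne hU' hne' f W hW
  exact pingpong' hα hmin ρ hg hu hU hne hU' hne' f hW

theorem sch_of_ind [Infinite X] (h : Ind α ρ) {m : ℕ} (f : Fin m → G) (W : Fin m → Set L)
    (hW : ∀ i, W i ∈ 𝓝 (ρ (f i))) : ∃ a : Fin m → G, Sch α a ∧ ∀ i, ρ (a i) ∈ W i := by
  obtain ⟨P, Q, h1, h2, h3, h4, h5⟩ := exists_sets (X := X) m
  choose a ha ha' using fun i => h _ _ isOpen_interior (h5 i).1
    isOpen_interior (h5 i).2 (f i) (W i) (hW i)
  exact ⟨a, ⟨P, Q, h1, h2, h3, h4, fun i x hx => interior_subset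
    (ha' i x fun h0 => hx (interior_subset h0))⟩, ha⟩

theorem np_of_lox [T2Space L] [FirstCountableTopology L]
    (h : ∀ W ∈ 𝓝 (1 : L), ∃ g, Sch α (fun _ : Fin 1 => g) ∧ ρ g ∈ W) : NP ρ := by
  obtain ⟨B, hB⟩ := (𝓝 (1 : L)).exists_antitone_basis
  choose g hg hgB using fun n => h (B n) (hB.mem n)
  have h1 : Tendsto (fun k => ρ (g k)) atTop (𝓝 1) := hB.tendsto hgB
  rcases np_or g h1 with h2 | ⟨s, hs⟩
  · exact h2
  · have h3 := eq_of_freq h1 hs
    obtain ⟨k, hk⟩ := hs.exists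
    have h4 : Sch α (fun _ : Fin 1 => s) := hk ▸ hg k
    refine ⟨fun k => s ^ k, 1, h4.pow_inj 0, ?_⟩
    refine tendsto_const_nhds.congr fun n => ?_
    rw [map_pow, h3, one_pow]

/-- The orbit of `(x, l)` in `X × L`. -/
def orb (α : G →* (X ≃ₜ X)) (ρ : G →* L) (x : X) (l : L) : Set (X × L) :=
  range fun g => (α g x, ρ g * l)

theorem np_of_orb [T2Space L] [FirstCountableTopology L] [Infinite X] {x₀ : X}
    (h : ∀ x, (x, (1 : L)) ∈ closure (orb α ρ x₀ 1)) : NP ρ := by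
  by_contra hcon
  have h1 : ∀ x, ∃ g, ρ g = 1 ∧ α g x₀ = x := by
    intro x
    obtain ⟨p, hp, hlim⟩ := mem_closure_iff_seq_limit.1 (h x)
    choose g hg using hp
    have h2 : Tendsto (fun k => ρ (g k)) atTop (𝓝 1) := by
      have h3 := (continuous_snd.tendsto _).comp hlim
      refine h3.congr fun k => ?_
      change (p k).2 = _
      rw [show (p k).2 = ρ (g k) * 1 from (congrArg Prod.snd (hg k)).symm, mul_one]
    have h3 : Tendsto (fun k => α (g k) x₀) atTop (𝓝 x) := by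
      have h4 := (continuous_fst.tendsto _).comp hlim
      refine h4.congr fun k => ?_
      exact (congrArg Prod.fst (hg k)).symm
    rcases np_or g h2 with h4 | ⟨s, hs⟩
    · exact absurd h4 hcon
    · refine ⟨s, eq_of_freq h2 hs, ?_⟩
      obtain ⟨φ, hφ, h5⟩ := extraction_of_frequently_atTop hs
      refine tendsto_nhds_unique ?_ (h3.comp hφ.tendsto_atTop)
      refine tendsto_const_nhds.congr fun n => ?_
      simp only [Function.comp, h5]
  refine hcon (np_of_ker fun hfin => ?_)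
  have h2 : (univ : Set X) ⊆ (fun g => α g x₀) '' {g : G | ρ g = 1} := by
    intro x _
    obtain ⟨g, hg, hx⟩ := h1 x
    exact ⟨g, hg, hx⟩
  exact Set.infinite_univ ((hfin.image _).subset h2)

theorem orb_of_ind [IsTopologicalGroup L] [Infinite X] (h : Ind α ρ) (x y : X) {l l' : L}
    (hl : l ∈ closure (range ρ)) (hl' : l' ∈ closure (range ρ)) :
    (y, l') ∈ closure (orb α ρ x l) := by
  have hcl : l' * l⁻¹ ∈ closure (range ρ) := by
    have h1 : (closure (range ρ) : Set L) = (ρ.range.topologicalClosure : Set L) := by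
      rw [Subgroup.topologicalClosure_coe]
      rfl
    rw [h1] at hl hl' ⊢
    exact Subgroup.mul_mem _ hl' (Subgroup.inv_mem _ hl)
  rw [mem_closure_iff_nhds]
  intro N hN
  obtain ⟨U, hU, W, hW, hUW⟩ := mem_nhds_prod_iff.1 hN
  obtain ⟨U₁, hU₁, hU₁o, hyU⟩ := _root_.mem_nhds_iff.1 hU
  obtain ⟨W₁, hW₁, hW₁o, hlW⟩ := _root_.mem_nhds_iff.1 hW
  have hopen : IsOpen ((fun w : L => w * l) ⁻¹' W₁) := hW₁o.preimage (continuous_mul_const l)
  obtain ⟨w, hw, ⟨f, rfl⟩⟩ := mem_closure_iff.1 hcl _ hopen (by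
    change l' * l⁻¹ * l ∈ W₁
    rwa [inv_mul_cancel_right])
  obtain ⟨y', hy'⟩ := exists_ne x
  obtain ⟨g, hg, hg'⟩ := h U₁ {x}ᶜ hU₁o ⟨y, hyU⟩ isOpen_compl_singleton ⟨y', hy'⟩ f _
    (hopen.mem_nhds hw)
  exact ⟨(α g x, ρ g * l), hUW ⟨hU₁ (hg' x fun h0 => h0 rfl), hW₁ hg⟩, g, rfl⟩

/-- Closed invariant subsets are products. -/
theorem prod_of_ind [Infinite X] (h : Ind α ρ) {Z : Type} [TopologicalSpace Z]
    [MulAction L Z] [ContinuousSMul L Z] {R : Set (X × Z)} (hR : IsClosed R)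
    (hinv : ∀ g x z, (x, z) ∈ R → (α g x, ρ g • z) ∈ R) (x x' : X) (z : Z) (hx : (x, z) ∈ R) :
    (x', z) ∈ R := by
  rw [← hR.closure_eq, mem_closure_iff_nhds]
  intro N hN
  obtain ⟨U, hU, V, hV, hUV⟩ := mem_nhds_prod_iff.1 hN
  obtain ⟨U₁, hU₁, hU₁o, hyU⟩ := _root_.mem_nhds_iff.1 hU
  have h1 : (fun l : L => l • z) ⁻¹' V ∈ 𝓝 (ρ 1) := by
    have hc : Continuous fun l : L => l • z := continuous_id.smul continuous_const
    refine hc.continuousAt.preimage_mem_nhds ?_
    rw [map_one, one_smul]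
    exact hV
  obtain ⟨y', hy'⟩ := exists_ne x
  obtain ⟨g, hg, hg'⟩ := h U₁ {x}ᶜ hU₁o ⟨x', hyU⟩ isOpen_compl_singleton ⟨y', hy'⟩ 1 _ h1
  exact ⟨(α g x, ρ g • z), hUV ⟨hU₁ (hg' x fun h0 => h0 rfl), hg⟩, hinv g x z hx⟩

theorem orb_inv [IsTopologicalGroup L] {x₀ : X} {g : G} {x : X} {l : L}
    (h : (x, l) ∈ closure (orb α ρ x₀ 1)) : (α g x, ρ g * l) ∈ closure (orb α ρ x₀ 1) := by
  have hc : Continuous fun p : X × L => (α g p.1, ρ g * p.2) :=
    ((α g).continuous.comp continuous_fst).prodMk ((continuous_const_mul (ρ g)).comp continuous_snd)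
  have h1 : (fun p : X × L => (α g p.1, ρ g * p.2)) '' (orb α ρ x₀ 1) ⊆ orb α ρ x₀ 1 := by
    rintro _ ⟨_, ⟨f, rfl⟩, rfl⟩
    refine ⟨g * f, Prod.ext ?_ ?_⟩
    · exact map_mul_apply α g f x₀
    · change ρ (g * f) * 1 = ρ g * (ρ f * 1)
      rw [map_mul, mul_assoc]
  have h2 := image_closure_subset_closure_image hc (s := orb α ρ x₀ 1)
  exact closure_mono h1 (h2 (mem_image_of_mem _ h))

/-- The action on `X × L` is properly discontinuous. -/
def Pd (α : G →* (X ≃ₜ X)) (ρ : G →* L) : Prop :=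
  ∀ K : Set (X × L), IsCompact K → {g : G | ∃ p ∈ K, (α g p.1, ρ g * p.2) ∈ K}.Finite

theorem not_pd_of_np [CompactSpace X] [Infinite X] (h : NP ρ) : ¬ Pd α ρ := by
  obtain ⟨g, u, hg, hu⟩ := h
  intro hpd
  have hK : IsCompact ((univ : Set X) ×ˢ (insert (1 : L) (insert u (range fun k => ρ (g k))))) :=
    isCompact_univ.prod (hu.isCompact_insert_range.insert 1)
  obtain ⟨x⟩ : Nonempty X := inferInstance
  refine Set.infinite_of_injective_forall_mem hg (fun k => ?_) (hpd _ hK)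
  refine ⟨(x, 1), ⟨mem_univ _, mem_insert _ _⟩, ⟨mem_univ _, ?_⟩⟩
  change ρ (g k) * 1 ∈ _
  rw [mul_one]
  exact mem_insert_of_mem _ (mem_insert_of_mem _ ⟨k, rfl⟩)

theorem np_of_not_pd [IsTopologicalGroup L] [FirstCountableTopology L] (h : ¬ Pd α ρ) : NP ρ := by
  unfold Pd at h
  push Not at h
  obtain ⟨K, hK, hinf⟩ := h
  have hinf' : {g : G | ∃ p ∈ K, (α g p.1, ρ g * p.2) ∈ K}.Infinite := hinf
  set e := hinf'.natEmbedding
  choose p hp hp' using fun n => (e n).2
  have hK₂ : IsCompact (Prod.snd '' K) := hK.image continuous_snd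
  obtain ⟨⟨a, b⟩, -, φ, hφ, hlim⟩ := (hK₂.prod hK₂).tendsto_subseq
    (x := fun n => ((p n).2, ρ (e n : G) * (p n).2))
    (fun n => ⟨⟨_, hp n, rfl⟩, ⟨_, hp' n, rfl⟩⟩)
  have ha : Tendsto (fun n => (p (φ n)).2) atTop (𝓝 a) := (continuous_fst.tendsto _).comp hlim
  have hb : Tendsto (fun n => ρ (e (φ n) : G) * (p (φ n)).2) atTop (𝓝 b) :=
    (continuous_snd.tendsto _).comp hlim
  refine ⟨fun n => e (φ n), b * a⁻¹, fun m n hmn => hφ.injective (e.injective (Subtype.ext hmn)), ?_⟩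
  refine (hb.mul ha.inv).congr fun n => ?_
  rw [mul_inv_cancel_right]

end A

section Norm

variable {G : Type} [Group G] {X : Type} [MetricSpace X] {α : G →* (X ≃ₜ X)}
variable {R : Type} [NormedRing R] [NormOneClass R] {ρ : G →* Rˣ}

/-- A subgroup generated by two elements in ping-pong position which is not mapped properly. -/
theorem exists_pair [CompactSpace X] [Infinite X]
    (hα : IsConvergenceAction α) (hmin : ∀ x, Dense (range fun g => α g x)) (h : NP ρ) :
    ∃ a : Fin 2 → G, Sch α a ∧ NP (ρ.comp (Subgroup.closure (range a)).subtype) := by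
  have h1R : ‖(1 : R)‖ ≤ 1 := norm_one.le
  obtain ⟨a, ha, hW⟩ := sch_of_ind (ind_of_np hα hmin h) (fun _ : Fin 2 => (1 : G))
    (fun _ => {w : Rˣ | ‖(w : R) - 1‖ < 1 / 16}) (fun _ => by
      have hc : Continuous fun w : Rˣ => ‖(w : R) - 1‖ :=
        (Units.continuous_val.sub continuous_const).norm
      refine (isOpen_lt hc continuous_const).mem_nhds ?_
      change ‖((ρ 1 : Rˣ) : R) - 1‖ < 1 / 16
      rw [map_one, Units.val_one, sub_self, norm_zero]
      norm_num)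
  have hb : ∀ i, ‖((ρ (a i) : Rˣ) : R) - 1‖ ≤ 1 / 16 := fun i => le_of_lt (hW i)
  refine ⟨a, ha, fun k => ⟨cs (a 0) (a 1) k, cs_mem _ (Subgroup.subset_closure (mem_range_self 0))
    (Subgroup.subset_closure (mem_range_self 1)) k⟩, 1, fun j k hjk => ?_, ?_⟩
  · exact cs_inj (ha.free le_rfl) (i := 0) (j := 1) (by decide) (congrArg Subtype.val hjk)
  · have h2 : ∀ k, ‖((ρ (cs (a 0) (a 1) k) : Rˣ) : R) - 1‖ ≤ 1 / 16 * (1 / 2) ^ k := by
      intro k
      rw [map_cs]
      exact norm_cs_le h1R (hb 0) (hb 1) k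
    have h3 : Tendsto (fun k : ℕ => (1 / 16 * (1 / 2) ^ k : ℝ)) atTop (𝓝 0) := by
      have := (tendsto_pow_atTop_nhds_zero_of_lt_one (r := (1 / 2 : ℝ)) (by norm_num)
        (by norm_num)).const_mul (1 / 16)
      simpa using this
    have hA : Tendsto (fun k => ((ρ (cs (a 0) (a 1) k) : Rˣ) : R)) atTop (𝓝 1) := by
      rw [tendsto_iff_norm_sub_tendsto_zero]
      exact squeeze_zero (fun k => norm_nonneg _) h2 h3
    have hB : Tendsto (fun k => (((ρ (cs (a 0) (a 1) k))⁻¹ : Rˣ) : R)) atTop (𝓝 1) := by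
      rw [tendsto_iff_norm_sub_tendsto_zero]
      have h4 : ∀ k : ℕ, ‖(((ρ (cs (a 0) (a 1) k))⁻¹ : Rˣ) : R) - 1‖ ≤
          2 * (1 / 16 * (1 / 2) ^ k) := by
        intro k
        set c := ρ (cs (a 0) (a 1) k) with hc
        have h5 : ((c⁻¹ : Rˣ) : R) - 1 = ((c⁻¹ : Rˣ) : R) * (1 - (c : R)) := by
          rw [mul_sub, mul_one, Units.inv_mul]
        have h6 : (1 / 16 * (1 / 2) ^ k : ℝ) ≤ 1 / 16 := by
          have : (1 / 2 : ℝ) ^ k ≤ 1 := pow_le_one₀ (by norm_num) (by norm_num)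
          linarith
        have h7 := norm_inv_le h1R ((h2 k).trans h6)
        rw [h5]
        calc _ ≤ ‖((c⁻¹ : Rˣ) : R)‖ * ‖1 - (c : R)‖ := norm_mul_le _ _
          _ ≤ 2 * (1 / 16 * (1 / 2) ^ k) := by
            rw [norm_sub_rev]
            exact mul_le_mul h7 (h2 k) (norm_nonneg _) (by norm_num)
      exact squeeze_zero (fun k => norm_nonneg _) h4 (by simpa using h3.const_mul 2)
    exact (Units.isInducing_embedProduct.tendsto_nhds_iff).2
      (hA.prodMk_nhds ((MulOpposite.continuous_op.tendsto 1).comp hB))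

end Norm

end Pool.Agent.H72.In
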