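import Pool.Agent.H72.In.I7

/-!
# Test elements
-/

set_option autoImplicit false

open Filter Topology Set Metric Pool.Agent.TH289.C Pool.Agent.H72.Dj

namespace Pool.Agent.H72.In

section A

variable {G : Type} [Group G] {X : Type} [MetricSpace X] {α : G →* (X ≃ₜ X)}

/-- Nonempty open sets are infinite. -/
theorem open_infinite [CompactSpace X] [Infinite X] (hmin : ∀ x, Dense (range fun g => α g x))
    {O : Set X} (hO : IsOpen O) (hne : O.Nonempty) : O.Infinite := by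
  intro hfin
  obtain ⟨T, hT⟩ := exists_finite hmin hO hne
  have h1 : (univ : Set X) ⊆ ⋃ t ∈ T, (α t) ⁻¹' O := by
    intro x _
    obtain ⟨t, ht, h⟩ := hT x
    exact mem_iUnion₂.2 ⟨t, ht, h⟩
  refine Set.infinite_univ ((T.finite_toSet.biUnion fun t _ => ?_).subset h1)
  exact hfin.preimage (α t).injective.injOn

/-- Two disjoint closed sets with nonempty interior in an infinite open set. -/
theorem exists_two {O : Set X} (hO : IsOpen O) (hinf : O.Infinite) : ∃ P Q : Set X,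
    IsClosed P ∧ IsClosed Q ∧ P ⊆ O ∧ Q ⊆ O ∧ Disjoint P Q ∧ (∃ x ∈ O, x ∉ P ∧ x ∉ Q) ∧
    (interior P).Nonempty ∧ (interior Q).Nonempty := by
  set e := hinf.natEmbedding with he
  have heinj : ∀ i j : ℕ, (e i : X) = e j → i = j := fun i j h => e.injective (Subtype.ext h)
  obtain ⟨U, hU, hd⟩ := (Set.finite_range fun i : Fin 3 => (e i : X)).t2_separation
  have h1 : ∀ x : X, x ∈ O → ∃ r : ℝ, 0 < r ∧ closedBall x r ⊆ U x ∩ O := fun x hx =>
    nhds_basis_closedBall.mem_iff.1 (inter_mem ((hU x).2.mem_nhds (hU x).1) (hO.mem_nhds hx))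
  choose! r hr hrU using h1
  have hdis : ∀ i j : ℕ, i < 3 → j < 3 → i ≠ j →
      Disjoint (closedBall (e i : X) (r (e i))) (closedBall (e j : X) (r (e j))) := by
    intro i j hi hj hij
    have h2 := hd ⟨⟨i, hi⟩, rfl⟩ ⟨⟨j, hj⟩, rfl⟩ (fun h0 => hij (heinj _ _ h0))
    exact h2.mono ((hrU _ (e i).2).trans inter_subset_left)
      ((hrU _ (e j).2).trans inter_subset_left)
  have hint : ∀ i : ℕ, (interior (closedBall (e i : X) (r (e i)))).Nonempty := fun i =>
    ⟨e i, mem_interior_iff_mem_nhds.2 (closedBall_mem_nhds _ (hr _ (e i).2))⟩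
  refine ⟨closedBall (e 0 : X) (r (e 0)), closedBall (e 1 : X) (r (e 1)), isClosed_closedBall,
    isClosed_closedBall, (hrU _ (e 0).2).trans inter_subset_right,
    (hrU _ (e 1).2).trans inter_subset_right, hdis 0 1 (by omega) (by omega) (by omega),
    ⟨e 2, (e 2).2, fun h0 => ?_, fun h0 => ?_⟩, hint 0, hint 1⟩
  · exact disjoint_left.1 (hdis 0 2 (by omega) (by omega) (by omega)) h0
      (mem_closedBall_self (hr _ (e 2).2).le)
  · exact disjoint_left.1 (hdis 1 2 (by omega) (by omega) (by omega)) h0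
      (mem_closedBall_self (hr _ (e 2).2).le)

variable {L : Type} [Group L] [TopologicalSpace L] {ρ : G →* L}

/-- A given loxodromic element and an element near a given one, in ping-pong position. -/
theorem exists_partner [CompactSpace X] [Infinite X] (hmin : ∀ x, Dense (range fun g => α g x))
    (h : Ind α ρ) {s : G} (hs : Sch α (fun _ : Fin 1 => s)) (f : G) {W : Set L}
    (hW : W ∈ 𝓝 (ρ f)) : ∃ t, Sch α ![s, t] ∧ ρ t ∈ W := by
  obtain ⟨P, Q, hc, -, hPQ, ⟨x, hx⟩, ha⟩ := hs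
  have hO : IsOpen ((P 0)ᶜ ∩ (Q 0)ᶜ) := (hc 0).1.isOpen_compl.inter (hc 0).2.isOpen_compl
  obtain ⟨P', Q', hP', hQ', hPO, hQO, hd, ⟨y, hy, hyP, hyQ⟩, hPi, hQi⟩ :=
    exists_two hO (open_infinite hmin hO ⟨x, (hx 0).1, (hx 0).2⟩)
  obtain ⟨t, htW, ht⟩ := h _ _ isOpen_interior hPi isOpen_interior hQi f W hW
  have d1 : Disjoint (P 0) P' := disjoint_left.2 fun z hz hz' => (hPO hz').1 hz
  have d2 : Disjoint (Q 0) Q' := disjoint_left.2 fun z hz hz' => (hQO hz').2 hz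
  have d3 : Disjoint (P 0) Q' := disjoint_left.2 fun z hz hz' => (hQO hz').1 hz
  have d4 : Disjoint P' (Q 0) := disjoint_left.2 fun z hz hz' => (hPO hz).2 hz'
  refine ⟨t, ⟨![P 0, P'], ![Q 0, Q'], ?_, ?_, ?_, ⟨y, ?_⟩, ?_⟩, htW⟩
  · intro i
    fin_cases i
    · exact hc 0
    · exact ⟨hP', hQ'⟩
  · intro i j hij
    fin_cases i <;> fin_cases j
    · exact absurd rfl hij
    · exact ⟨d1, d2⟩
    · exact ⟨d1.symm, d2.symm⟩
    · exact absurd rfl hij
  · intro i j
    fin_cases i <;> fin_cases j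
    · exact hPQ 0 0
    · exact d3
    · exact d4
    · exact hd
  · intro i
    fin_cases i
    · exact ⟨hy.1, hy.2⟩
    · exact ⟨hyP, hyQ⟩
  · intro i z hz
    fin_cases i
    · exact ha 0 z hz
    · exact interior_subset (ht z fun h0 => hz (interior_subset h0))

/-- Not proper if the identity is approximated by elements with prescribed dynamics. -/
theorem np_of_pq [T2Space L] [FirstCountableTopology L] {P Q : Set X} (hP : IsClosed P)
    (hQ : IsClosed Q) (hd : Disjoint P Q) (hne : ∃ x, x ∉ P ∧ x ∉ Q)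
    (h : ∀ W ∈ 𝓝 (1 : L), ∃ g, (∀ x ∉ Q, α g x ∈ P) ∧ ρ g ∈ W) : NP ρ := by
  obtain ⟨x, hx⟩ := hne
  refine np_of_lox (α := α) fun W hW => ?_
  obtain ⟨g, hg, hgW⟩ := h W hW
  exact ⟨g, ⟨fun _ => P, fun _ => Q, fun _ => ⟨hP, hQ⟩,
    fun i j hij => absurd (Subsingleton.elim i j) hij, fun _ _ => hd, ⟨x, fun _ => hx⟩,
    fun _ => hg⟩, hgW⟩

end A

section Norm

variable {G : Type} [Group G] {R : Type} [NormedRing R] (h1R : ‖(1 : R)‖ ≤ 1)

include h1R

/-- The commutator of an element near the identity and a given one. -/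
theorem comm_near (b : Rˣ) : ∃ δ : ℝ, 0 < δ ∧ δ ≤ 1 / 16 ∧ ∀ a : Rˣ, ‖(a : R) - 1‖ ≤ δ →
    ‖((a * b * a⁻¹ * b⁻¹ : Rˣ) : R) - 1‖ ≤ 1 / 16 := by
  set M : ℝ := ‖(b : R)‖ * ‖((b⁻¹ : Rˣ) : R)‖ with hM
  have hM0 : 0 ≤ M := by positivity
  refine ⟨1 / (64 * (1 + M)), by positivity, ?_, fun a ha => ?_⟩
  · rw [div_le_div_iff₀ (by positivity) (by norm_num)]
    linarith
  have hδ : 1 / (64 * (1 + M)) ≤ 1 / 16 := by
    rw [div_le_div_iff₀ (by positivity) (by norm_num)]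
    linarith
  have ha' := norm_inv_le h1R (ha.trans hδ)
  have e : ((a * b * a⁻¹ * b⁻¹ : Rˣ) : R) - 1 = (((a : R) - 1) * b - b * ((a : R) - 1)) *
      ((a⁻¹ : Rˣ) : R) * ((b⁻¹ : Rˣ) : R) := by
    have e1 : (((a : R) - 1) * b - b * ((a : R) - 1)) = (a : R) * b - b * a := by noncomm_ring
    rw [e1, sub_mul, sub_mul, mul_assoc (b : R) a, Units.mul_inv, mul_one, Units.mul_inv]
    push_cast
    rfl
  rw [e]
  calc _ ≤ ‖(((a : R) - 1) * b - b * ((a : R) - 1)) * ((a⁻¹ : Rˣ) : R)‖ *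
        ‖((b⁻¹ : Rˣ) : R)‖ := norm_mul_le _ _
    _ ≤ (‖((a : R) - 1) * b - b * ((a : R) - 1)‖ * ‖((a⁻¹ : Rˣ) : R)‖) *
        ‖((b⁻¹ : Rˣ) : R)‖ := by gcongr; exact norm_mul_le _ _
    _ ≤ ((‖(a : R) - 1‖ * ‖(b : R)‖ + ‖(b : R)‖ * ‖(a : R) - 1‖) * 2) * ‖((b⁻¹ : Rˣ) : R)‖ := by
        gcongr
        exact (norm_sub_le _ _).trans (add_le_add (norm_mul_le _ _) (norm_mul_le _ _))
    _ = 4 * ‖(a : R) - 1‖ * M := by rw [hM]; ring
    _ ≤ 4 * (1 / (64 * (1 + M))) * M := by gcongr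
    _ ≤ 1 / 16 := by
        rw [mul_one_div, div_mul_eq_mul_div, div_le_div_iff₀ (by positivity) (by norm_num)]
        linarith

/-- A given element and an element sufficiently near the identity generate a group which is not
mapped properly, if they generate a free group. -/
theorem pair_seq (ρ : G →* Rˣ) (s : G) : ∃ δ : ℝ, 0 < δ ∧ ∀ t : G, ‖(ρ t : R) - 1‖ ≤ δ →
    Function.Injective (FreeGroup.lift ![s, t]) →
    ∃ c : ℕ → G, Function.Injective c ∧ (∀ k, c k ∈ Subgroup.closure (range ![s, t])) ∧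
      ∀ k, ‖(ρ (c k) : R) - 1‖ ≤ 1 / 16 * (1 / 2) ^ k := by
  obtain ⟨δ, hδ, hδ16, h⟩ := comm_near h1R (ρ s)
  refine ⟨δ, hδ, fun t ht hfree => ?_⟩
  have hinj : Function.Injective (cs t s) := by
    have := cs_inj hfree (i := 1) (j := 0) (by decide)
    simpa using this
  have hs : s ∈ Subgroup.closure (range ![s, t]) :=
    Subgroup.subset_closure ⟨0, rfl⟩
  have ht' : t ∈ Subgroup.closure (range ![s, t]) :=
    Subgroup.subset_closure ⟨1, rfl⟩
  have hcs : ∀ k, cs t s (k + 1) = cs t (t * s * t⁻¹ * s⁻¹) k := by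
    intro k
    induction k with
    | zero => rfl
    | succ k ih =>
      change t * cs t s (k + 1) * t⁻¹ * (cs t s (k + 1))⁻¹ = _
      rw [ih]
      rfl
  refine ⟨fun k => cs t s (k + 1), fun j k hjk => by
    have := hinj hjk
    omega, fun k => cs_mem _ ht' hs _, fun k => ?_⟩
  simp only
  rw [hcs, map_cs]
  refine norm_cs_le h1R (ht.trans hδ16) ?_ k
  have := h (ρ t) ht
  simpa only [map_mul, map_inv] using this

/-- Convergence to the identity in the group of units. -/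
theorem tendsto_units {c : ℕ → Rˣ} (h : ∀ k, ‖(c k : R) - 1‖ ≤ 1 / 16 * (1 / 2) ^ k) :
    Tendsto c atTop (𝓝 1) := by
  have h3 : Tendsto (fun k : ℕ => (1 / 16 * (1 / 2) ^ k : ℝ)) atTop (𝓝 0) := by
    have := (tendsto_pow_atTop_nhds_zero_of_lt_one (r := (1 / 2 : ℝ)) (by norm_num)
      (by norm_num)).const_mul (1 / 16)
    simpa using this
  have hA : Tendsto (fun k => (c k : R)) atTop (𝓝 1) := by
    rw [tendsto_iff_norm_sub_tendsto_zero]
    exact squeeze_zero (fun k => norm_nonneg _) h h3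
  have hB : Tendsto (fun k => (((c k)⁻¹ : Rˣ) : R)) atTop (𝓝 1) := by
    rw [tendsto_iff_norm_sub_tendsto_zero]
    have h4 : ∀ k : ℕ, ‖(((c k)⁻¹ : Rˣ) : R) - 1‖ ≤ 2 * (1 / 16 * (1 / 2) ^ k) := by
      intro k
      have h5 : (((c k)⁻¹ : Rˣ) : R) - 1 = (((c k)⁻¹ : Rˣ) : R) * (1 - (c k : R)) := by
        rw [mul_sub, mul_one, Units.inv_mul]
      have h6 : (1 / 16 * (1 / 2) ^ k : ℝ) ≤ 1 / 16 := by
        have : (1 / 2 : ℝ) ^ k ≤ 1 := pow_le_one₀ (by norm_num) (by norm_num)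
        linarith
      have h7 := norm_inv_le h1R ((h k).trans h6)
      rw [h5]
      calc _ ≤ ‖(((c k)⁻¹ : Rˣ) : R)‖ * ‖1 - (c k : R)‖ := norm_mul_le _ _
        _ ≤ 2 * (1 / 16 * (1 / 2) ^ k) := by
          rw [norm_sub_rev]
          exact mul_le_mul h7 (h k) (norm_nonneg _) (by norm_num)
    exact squeeze_zero (fun k => norm_nonneg _) h4 (by simpa using h3.const_mul 2)
  exact (Units.isInducing_embedProduct.tendsto_nhds_iff).2
    (hA.prodMk_nhds ((MulOpposite.continuous_op.tendsto 1).comp hB))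

end Norm

section Pair

variable {G : Type} [Group G] {X : Type} [MetricSpace X] {α : G →* (X ≃ₜ X)}
variable {R : Type} [NormedRing R] {ρ : G →* Rˣ}

/-- A partner of a given loxodromic element. -/
theorem exists_bad_partner (h1R : ‖(1 : R)‖ ≤ 1) [CompactSpace X] [Infinite X]
    (hmin : ∀ x, Dense (range fun g => α g x)) (h : Ind α ρ) {s : G}
    (hs : Sch α (fun _ : Fin 1 => s)) : ∃ t, Sch α ![s, t] ∧
      ∃ c : ℕ → G, Function.Injective c ∧ (∀ k, c k ∈ Subgroup.closure (range ![s, t])) ∧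
      ∀ k, ‖(ρ (c k) : R) - 1‖ ≤ 1 / 16 * (1 / 2) ^ k := by
  obtain ⟨δ, hδ, h1⟩ := pair_seq h1R ρ s
  obtain ⟨t, ht, htW⟩ := exists_partner hmin h hs 1 (W := {w : Rˣ | ‖(w : R) - 1‖ < δ}) (by
    have hc : Continuous fun w : Rˣ => ‖(w : R) - 1‖ :=
      (Units.continuous_val.sub continuous_const).norm
    refine (isOpen_lt hc continuous_const).mem_nhds ?_
    change ‖((ρ 1 : Rˣ) : R) - 1‖ < δ
    rw [map_one, Units.val_one, sub_self, norm_zero]
    exact hδ)
  exact ⟨t, ht, h1 t (le_of_lt htW) (ht.free le_rfl)⟩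

/-- The same as a statement on homomorphisms. -/
theorem exists_bad_partner' (h1R : ‖(1 : R)‖ ≤ 1) [CompactSpace X] [Infinite X]
    (hα : IsConvergenceAction α) (hmin : ∀ x, Dense (range fun g => α g x)) (h : NP ρ) {s : G}
    (hs : Sch α (fun _ : Fin 1 => s)) : ∃ t, Sch α ![s, t] ∧
      NP (ρ.comp (Subgroup.closure (range ![s, t])).subtype) := by
  obtain ⟨t, ht, c, hc, hmem, hn⟩ := exists_bad_partner h1R hmin (ind_of_np hα hmin h) hs
  refine ⟨t, ht, fun k => ⟨c k, hmem k⟩, 1, fun j k hjk => hc (congrArg Subtype.val hjk), ?_⟩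
  exact tendsto_units (c := fun k => ρ (c k)) h1R hn

end Pair

end Pool.Agent.H72.In
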