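import Pool.Agent.H72.In.I8
import Pool.Agent.H72.In.I6

/-!
# Criteria for lattices with test elements
-/

set_option autoImplicit false

open Filter Topology Set Metric
open Pool.Agent.TH289.C (IsConvergenceAction Sph)

namespace Pool.Agent.H72.In

section Gen

variable {G : Type} [Group G] {X : Type} [MetricSpace X] {α : G →* (X ≃ₜ X)}
variable [CompactSpace X] [Infinite X] (hα : IsConvergenceAction α)
  (hmin : ∀ x, Dense (range fun g => α g x))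

include hα hmin

/-- There are loxodromic elements. -/
theorem exists_lox : ∃ s, Sch α (fun _ : Fin 1 => s) := by
  have hinf : (univ : Set G).Infinite := by
    intro hfin
    obtain ⟨x⟩ : Nonempty X := inferInstance
    refine Dj.infinite_orbit hmin x ((hfin.image fun g => α g x).subset ?_)
    rintro _ ⟨g, rfl⟩
    exact ⟨g, mem_univ g, rfl⟩
  have hNP : NP (1 : G →* Multiplicative (ZMod 1)) :=
    np_of_ker (by simpa using hinf)
  obtain ⟨a, ha, -⟩ := sch_of_ind (ind_of_np hα hmin hNP) (fun _ : Fin 1 => (1 : G))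
    (fun _ => univ) (fun _ => univ_mem)
  refine ⟨a 0, ?_⟩
  have h2 : (fun _ : Fin 1 => a 0) = a := by
    ext i
    rw [Subsingleton.elim i 0]
  rw [h2]
  exact ha

variable {R : Type} [NormedRing R] [ProperSpace R]

theorem partner_of_inf (h1R : ‖(1 : R)‖ ≤ 1) (ρ : G →* Rˣ) {M : ℝ}
    (hinf : {g : G | ‖(ρ g : R)‖ ≤ M ∧ ‖(ρ g⁻¹ : R)‖ ≤ M}.Infinite) {s : G}
    (hs : Sch α (fun _ : Fin 1 => s)) : ∃ t, Sch α ![s, t] ∧
      ∃ c : ℕ → G, Function.Injective c ∧ (∀ k, c k ∈ Subgroup.closure (range ![s, t])) ∧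
      ∀ k, ‖(ρ (c k) : R) - 1‖ ≤ 1 / 16 * (1 / 2) ^ k :=
  exists_bad_partner h1R hmin (ind_of_np hα hmin (lim_of_bdd ρ hinf)) hs

theorem pq_of_inf (ρ : G →* Rˣ) {M : ℝ}
    (hinf : {g : G | ‖(ρ g : R)‖ ≤ M ∧ ‖(ρ g⁻¹ : R)‖ ≤ M}.Infinite) {U U' : Set X}
    (hU : IsOpen U) (hne : U.Nonempty) (hU' : IsOpen U') (hne' : U'.Nonempty) {ε : ℝ}
    (hε : 0 < ε) : ∃ g, (∀ x ∉ U', α g x ∈ U) ∧ ‖(ρ g : R) - 1‖ ≤ ε := by
  obtain ⟨g, hg, h⟩ := ind_of_np hα hmin (lim_of_bdd ρ hinf) U U' hU hne hU' hne' 1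
    {w : Rˣ | ‖(w : R) - 1‖ < ε} (by
      have hc : Continuous fun w : Rˣ => ‖(w : R) - 1‖ :=
        (Units.continuous_val.sub continuous_const).norm
      refine (isOpen_lt hc continuous_const).mem_nhds ?_
      change ‖((ρ 1 : Rˣ) : R) - 1‖ < ε
      rw [map_one, Units.val_one, sub_self, norm_zero]
      exact hε)
  exact ⟨g, h, le_of_lt hg⟩

end Gen

section Hyp

open Pool.Agent.TH631.RC

variable {E : Type} [NormedAddCommGroup E] [InnerProductSpace ℝ E] [FiniteDimensional ℝ E]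
variable {G : Type} [Group G] {ρ : HypAction G E}
variable {X : Type} [MetricSpace X] {α : G →* (X ≃ₜ X)}
variable [CompactSpace X] [Infinite X] (hα : IsConvergenceAction α)
  (hmin : ∀ x, Dense (range fun g => α g x))

omit [CompactSpace X] [Infinite X] in
theorem inf_un (hfin : ¬ ∀ R : ℝ, {g : G | T ρ g ≤ R}.Finite) : ∃ M : ℝ,
    {g : G | ‖((un ρ g : ((ℝ × E) →L[ℝ] (ℝ × E))ˣ) : (ℝ × E) →L[ℝ] (ℝ × E))‖ ≤
      M ∧ ‖((un ρ g⁻¹ : ((ℝ × E) →L[ℝ] (ℝ × E))ˣ) : (ℝ × E) →L[ℝ] (ℝ × E))‖ ≤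
      M}.Infinite := by
  push Not at hfin
  obtain ⟨R, hR⟩ := hfin
  refine ⟨2 * R + 1, Set.Infinite.mono ?_ hR⟩
  intro g hg
  have hg' : T ρ g ≤ R := hg
  refine ⟨(norm_un_le g).trans (by linarith), (norm_un_le g⁻¹).trans ?_⟩
  rw [T_inv]
  linarith

theorem T_le_of_norm {g : G} {δ : ℝ} (h : ‖((un ρ g : ((ℝ × E) →L[ℝ] (ℝ × E))ˣ) :
    (ℝ × E) →L[ℝ] (ℝ × E)) - 1‖ ≤ δ) : T ρ g ≤ 1 + δ := by
  have h3 := (((un ρ g : ((ℝ × E) →L[ℝ] (ℝ × E))ˣ) : (ℝ × E) →L[ℝ] (ℝ × E)) - 1).le_opNorm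
    ((1 : ℝ), (0 : E))
  have h4 : ‖((1 : ℝ), (0 : E))‖ = 1 := by simp
  rw [h4, mul_one] at h3
  have h5 : ‖ρ.map g ((1 : ℝ), (0 : E)) - (1, 0)‖ ≤ δ := h3.trans h
  have h6 := (norm_fst_le _).trans h5
  have h7 : (ρ.map g ((1 : ℝ), (0 : E)) - (1, 0)).1 = T ρ g - 1 := rfl
  rw [h7, Real.norm_eq_abs] at h6
  linarith [le_abs_self (T ρ g - 1)]

include hα hmin

/-- The action is proper if it is proper on the subgroups generated by one loxodromic element and its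
partners. -/
theorem fin_of_partner {s : G} (hs : Sch α (fun _ : Fin 1 => s))
    (h : ∀ t, Sch α ![s, t] → {g : G | g ∈ Subgroup.closure (range ![s, t]) ∧ T ρ g ≤ 2}.Finite)
    (R : ℝ) : {g : G | T ρ g ≤ R}.Finite := by
  by_contra hcon
  obtain ⟨M, hM⟩ := inf_un (ρ := ρ) (fun h0 => hcon (h0 R))
  have h1 : ‖(1 : (ℝ × E) →L[ℝ] (ℝ × E))‖ ≤ 1 := ContinuousLinearMap.norm_id_le
  have : ProperSpace ((ℝ × E) →L[ℝ] (ℝ × E)) :=
    FiniteDimensional.proper ℝ ((ℝ × E) →L[ℝ] (ℝ × E))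
  obtain ⟨t, ht, c, hc, hmem, hn⟩ := partner_of_inf (R := (ℝ × E) →L[ℝ] (ℝ × E)) hα hmin h1
    (un ρ) hM hs
  refine Set.infinite_of_injective_forall_mem hc (fun k => ?_) (h t ht)
  refine ⟨hmem k, ?_⟩
  have h2 : (1 / 2 : ℝ) ^ k ≤ 1 := pow_le_one₀ (by norm_num) (by norm_num)
  exact (T_le_of_norm (hn k)).trans (by linarith)

/-- The action is proper if the displacement of the base point is bounded below for the elements with
prescribed dynamics. -/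
theorem fin_of_pq {P Q : Set X} (hP : (interior P).Nonempty) (hQ : (interior Q).Nonempty) {ε : ℝ}
    (hε : 0 < ε) (h : ∀ g, (∀ x ∉ Q, α g x ∈ P) → 1 + ε ≤ T ρ g) (R : ℝ) :
    {g : G | T ρ g ≤ R}.Finite := by
  by_contra hcon
  obtain ⟨M, hM⟩ := inf_un (ρ := ρ) (fun h0 => hcon (h0 R))
  have : ProperSpace ((ℝ × E) →L[ℝ] (ℝ × E)) :=
    FiniteDimensional.proper ℝ ((ℝ × E) →L[ℝ] (ℝ × E))
  obtain ⟨g, hg, hn⟩ := pq_of_inf (R := (ℝ × E) →L[ℝ] (ℝ × E)) hα hmin (un ρ) hM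
    isOpen_interior hP isOpen_interior hQ (half_pos hε)
  have h1 := h g fun x hx => interior_subset (hg x fun h0 => hx (interior_subset h0))
  linarith [T_le_of_norm hn]

end Hyp

end Pool.Agent.H72.In
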